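import Pool.Agent.Helper99.Rohr.Star

/-!
# Every formal sum of points is half of a half-system
-/

set_option autoImplicit false

namespace Pool.Agent.Helper99.Rohr

open Finset

theorem OddDist.half {A : Type} [AddCommGroup A] {N : ℕ} {f : ℚ → A} (hf : OddDist N f)
    (h : IsPt N (1 / 2)) : 2 • f (1 / 2) = 0 := by
  have h1 := hf.odd _ h
  have h2 : (1 : ℚ) - 1 / 2 = 1 / 2 := by norm_num
  rw [h2] at h1
  rw [two_nsmul]
  nth_rewrite 1 [h1]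
  exact neg_add_cancel _

theorem raise {N : ℕ} (hN : 0 < N) (h2N : 2 ∣ N) {S : Finset ℚ} (hS : HalfSys N S) {q : ℕ}
    (hq : 0 < q) : ∃ S', HalfSys (N * q ^ 2) S' ∧ ∀ (A : Type) [AddCommGroup A] (f : ℚ → A),
      OddDist (N * q ^ 2) f → ∑ x ∈ S', f x = ∑ x ∈ S, f x := by
  obtain ⟨S', h1, h2⟩ := step hN h2N hS hq ∅ (by simp) (by simp) (by simp)
  refine ⟨S', h1, fun A _ f hf => ?_⟩
  rw [h2 A f hf, sum_empty, smul_zero, add_zero]

theorem flip {N : ℕ} (hN : 0 < N) (h2N : 2 ∣ N) {S : Finset ℚ} (hS : HalfSys N S) {a : ℚ}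
    (ha : IsPt N a) (hne : a ≠ 1 / 2) :
    ∃ q > 0, ∃ S', HalfSys (N * q ^ 2) S' ∧ ∀ (A : Type) [AddCommGroup A] (f : ℚ → A),
      OddDist (N * q ^ 2) f → ∑ x ∈ S', f x = ∑ x ∈ S, f x + 2 • f a := by
  classical
  obtain ⟨h1, h2, z, hz⟩ := ha
  have hN' : (0 : ℚ) < N := by exact_mod_cast hN
  have hz0 : (0 : ℚ) < z := by rw [← hz]; positivity
  have hz1 : (z : ℚ) < N := by rw [← hz]; nlinarith
  have hz0' : 0 < z := by exact_mod_cast hz0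
  have hz1' : z < N := by exact_mod_cast hz1
  obtain ⟨B, rfl⟩ : ∃ B : ℕ, z = B := ⟨z.toNat, (Int.toNat_of_nonneg hz0'.le).symm⟩
  have hB0 : 0 < B := by exact_mod_cast hz0'
  have hB1 : B < N := by exact_mod_cast hz1'
  -- a prime
  have hnd : ¬ N ∣ B := fun h => by have := Nat.le_of_dvd hB0 h; omega
  have hex : ∃ q : ℕ, q.Prime ∧ B.factorization q < N.factorization q := by
    by_contra hcon
    push Not at hcon
    exact hnd ((Nat.factorization_prime_le_iff_dvd hN.ne' hB0.ne').1 hcon)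
  obtain ⟨q, hq, hv⟩ := hex
  set v := B.factorization q with hv'
  have hqB : q ^ v ∣ B := Nat.ordProj_dvd B q
  have hqB' : ¬ q ^ (v + 1) ∣ B := Nat.pow_succ_factorization_not_dvd hB0.ne' hq
  have hqN : q ^ (v + 1) ∣ N := (Nat.pow_dvd_pow q hv).trans (Nat.ordProj_dvd N q)
  have hq0 : 0 < q := hq.pos
  have hQ : 0 < q ^ (v + 1) := by positivity
  have hQ' : (0 : ℚ) < (q : ℚ) ^ (v + 1) := by positivity
  set K : Finset ℚ := (range (q ^ (v + 1))).image (fun k : ℕ => (a + k) / ((q ^ (v + 1) : ℕ) : ℚ))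
    with hK
  have memK : ∀ x, x ∈ K ↔ ∃ k < q ^ (v + 1), (a + k) / ((q ^ (v + 1) : ℕ) : ℚ) = x := by
    intro x
    rw [hK, mem_image]
    constructor
    · rintro ⟨k, hk, h⟩
      exact ⟨k, mem_range.1 hk, h⟩
    · rintro ⟨k, hk, h⟩
      exact ⟨k, mem_range.2 hk, h⟩
  have hKpt : ∀ x ∈ K, IsPt (N * q) x := by
    intro x hx
    obtain ⟨k, hk, rfl⟩ := (memK x).1 hx
    obtain ⟨B₁, hB₁⟩ := hqB
    obtain ⟨N₁, hN₁⟩ := (pow_dvd_pow q (Nat.le_succ v)).trans hqN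
    refine ⟨leaf_pos h1 hQ, leaf_lt h2 hk, B₁ + N₁ * k, ?_⟩
    have e1 : (N : ℚ) = (q : ℚ) ^ v * N₁ := by exact_mod_cast hN₁
    have e2 : (B : ℚ) = (q : ℚ) ^ v * B₁ := by exact_mod_cast hB₁
    have hqv : (q : ℚ) ^ v ≠ 0 := by positivity
    have hqq : (q : ℚ) ≠ 0 := by positivity
    push_cast
    have e3 : (N : ℚ) * q * ((a + k) / (q : ℚ) ^ (v + 1)) = (N * a + N * k) / (q : ℚ) ^ v := by
      rw [pow_succ]
      field_simp
    rw [e3, hz]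
    push_cast
    rw [e2, e1]
    field_simp
  have hKnpt : ∀ x ∈ K, ¬ IsPt N x := by
    rintro x hx ⟨-, -, w, hw⟩
    obtain ⟨k, hk, rfl⟩ := (memK x).1 hx
    obtain ⟨N₂, hN₂⟩ := hqN
    apply hqB'
    have e1 : (N : ℚ) = (q : ℚ) ^ (v + 1) * N₂ := by exact_mod_cast hN₂
    have e3 : (B : ℚ) = (q : ℚ) ^ (v + 1) * (w - N₂ * k) := by
      push_cast at hw hz
      have e4 : (N : ℚ) * a + N * k = w * (q : ℚ) ^ (v + 1) := by
        rw [← hw]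
        field_simp
      rw [← hz]
      have e5 : (N : ℚ) * a = w * (q : ℚ) ^ (v + 1) - N * k := by linarith
      rw [e5]
      nth_rewrite 1 [e1]
      ring
    have e6 : (B : ℤ) = (q : ℤ) ^ (v + 1) * (w - N₂ * k) := by exact_mod_cast e3
    have e7 : ((q ^ (v + 1) : ℕ) : ℤ) ∣ (B : ℤ) := ⟨w - N₂ * k, by rw [e6]; push_cast; ring⟩
    exact_mod_cast e7
  have hKr : ∀ x ∈ K, 1 - x ∉ K := by
    intro x hx hx'
    obtain ⟨k, hk, hkx⟩ := (memK x).1 hx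
    obtain ⟨l, hl, hlx⟩ := (memK _).1 hx'
    apply hne
    have hQ'' : (((q ^ (v + 1) : ℕ)) : ℚ) ≠ 0 := by positivity
    have e1 : (a + k) + (a + l) = ((q ^ (v + 1) : ℕ) : ℚ) := by
      have e2 : (a + k) / ((q ^ (v + 1) : ℕ) : ℚ) + (a + l) / ((q ^ (v + 1) : ℕ) : ℚ) = 1 := by
        rw [hkx, hlx]
        ring
      rw [← add_div, div_eq_one_iff_eq hQ''] at e2
      exact e2
    have e3 : (2 : ℚ) * a = ((q ^ (v + 1) : ℕ) : ℤ) - (k : ℤ) - (l : ℤ) := by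
      push_cast at e1 ⊢
      linarith
    have e4 : (0 : ℚ) < ((((q ^ (v + 1) : ℕ) : ℤ) - (k : ℤ) - (l : ℤ) : ℤ) : ℚ) := by
      push_cast at e3 ⊢
      rw [← e3]
      positivity
    have e5 : ((((q ^ (v + 1) : ℕ) : ℤ) - (k : ℤ) - (l : ℤ) : ℤ) : ℚ) < 2 := by
      push_cast at e3 ⊢
      rw [← e3]
      linarith
    have e6 : 0 < ((q ^ (v + 1) : ℕ) : ℤ) - (k : ℤ) - (l : ℤ) := by exact_mod_cast e4
    have e7 : ((q ^ (v + 1) : ℕ) : ℤ) - (k : ℤ) - (l : ℤ) < 2 := by exact_mod_cast e5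
    have e8 : ((q ^ (v + 1) : ℕ) : ℤ) - (k : ℤ) - (l : ℤ) = 1 := by omega
    have e9 : (2 : ℚ) * a = 1 := by
      rw [e3]
      exact_mod_cast e8
    linarith
  obtain ⟨S', hS', hsum⟩ := step hN h2N hS hq0 K hKpt hKnpt hKr
  refine ⟨q, hq0, S', hS', fun A _ f hf => ?_⟩
  rw [hsum A f hf]
  congr 2
  have hinj : Set.InjOn (fun k : ℕ => (a + k) / ((q ^ (v + 1) : ℕ) : ℚ)) (range (q ^ (v + 1))) := by
    intro k _ l _ hkl
    exact (leaf_inj hQ h1 h2 h1 h2 hkl).2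
  rw [hK, sum_image hinj]
  have haN : IsPt (N * q ^ 2) a := ⟨h1, h2, B * q ^ 2, by
    push_cast at hz ⊢
    rw [← hz]
    ring⟩
  apply hf.dist _ hQ a haN
  intro k hk
  exact (hKpt _ ((memK _).2 ⟨k, hk, rfl⟩)).mono ⟨q, by ring⟩

theorem halfSys_two : HalfSys (2 * 1 ^ 2) ∅ := by
  refine ⟨by simp, by simp, ?_⟩
  rintro x ⟨h1, h2, z, hz⟩ hne
  exfalso
  apply hne
  push_cast at hz
  have h3 : (0 : ℚ) < z := by rw [← hz]; linarith
  have h4 : (z : ℚ) < 2 := by rw [← hz]; linarith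
  have h5 : 0 < z := by exact_mod_cast h3
  have h6 : z < 2 := by exact_mod_cast h4
  have h7 : z = 1 := by omega
  rw [h7] at hz
  push_cast at hz
  linarith

theorem comb_aux {D : ℕ} (hD : 0 < D) (l : List ℚ) (hl : ∀ x ∈ l, IsPt D x) :
    ∃ M > 0, ∃ S, HalfSys (2 * M ^ 2) S ∧ ∀ (A : Type) [AddCommGroup A] (f : ℚ → A),
      OddDist (2 * M ^ 2) f → ∑ x ∈ S, f x = 2 • (l.map f).sum := by
  induction l with
  | nil => exact ⟨1, one_pos, ∅, halfSys_two, fun A _ f _ => by simp⟩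
  | cons a l ih =>
    obtain ⟨M, hM, S, hS, hsum⟩ := ih (fun x hx => hl x (List.mem_cons_of_mem _ hx))
    have hN : 0 < 2 * M ^ 2 := by positivity
    obtain ⟨S₁, hS₁, hsum₁⟩ := raise hN (Dvd.intro _ rfl) hS hD
    have e1 : 2 * M ^ 2 * D ^ 2 = 2 * (M * D) ^ 2 := by ring
    rw [e1] at hS₁ hsum₁
    have hdvd : 2 * M ^ 2 ∣ 2 * (M * D) ^ 2 := ⟨D ^ 2, by ring⟩
    have ha : IsPt (2 * (M * D) ^ 2) a := (hl a List.mem_cons_self).mono ⟨2 * M ^ 2 * D, by ring⟩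
    by_cases hne : a = 1 / 2
    · refine ⟨M * D, by positivity, S₁, hS₁, fun A _ f hf => ?_⟩
      rw [hsum₁ A f hf, hsum A f (hf.mono hdvd), List.map_cons, List.sum_cons, nsmul_add]
      rw [hne] at ha ⊢
      rw [hf.half ha, zero_add]
    · obtain ⟨q, hq, S₂, hS₂, hsum₂⟩ := flip (by positivity) (Dvd.intro _ rfl) hS₁ ha hne
      have e2 : 2 * (M * D) ^ 2 * q ^ 2 = 2 * (M * D * q) ^ 2 := by ring
      rw [e2] at hS₂ hsum₂
      have hdvd₁ : 2 * (M * D) ^ 2 ∣ 2 * (M * D * q) ^ 2 := ⟨q ^ 2, by ring⟩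
      refine ⟨M * D * q, by positivity, S₂, hS₂, fun A _ f hf => ?_⟩
      rw [hsum₂ A f hf, hsum₁ A f (hf.mono hdvd₁), hsum A f ((hf.mono hdvd₁).mono hdvd),
        List.map_cons, List.sum_cons, nsmul_add, add_comm]

theorem comb {D : ℕ} (hD : 0 < D) (l : List ℚ) (hl : ∀ x ∈ l, IsPt D x) :
    ∃ M₀ > 0, ∀ M > 0, M₀ ∣ M → ∃ S, HalfSys (2 * M ^ 2) S ∧
      ∀ (A : Type) [AddCommGroup A] (f : ℚ → A),
      OddDist (2 * M ^ 2) f → ∑ x ∈ S, f x = 2 • (l.map f).sum := by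
  obtain ⟨M₀, hM₀, S, hS, hsum⟩ := comb_aux hD l hl
  refine ⟨M₀, hM₀, ?_⟩
  rintro M hM ⟨c, rfl⟩
  have hc : 0 < c := Nat.pos_of_mul_pos_left hM
  obtain ⟨S₁, hS₁, hsum₁⟩ := raise (by positivity) (Dvd.intro _ rfl) hS hc
  have e1 : 2 * M₀ ^ 2 * c ^ 2 = 2 * (M₀ * c) ^ 2 := by ring
  rw [e1] at hS₁ hsum₁
  refine ⟨S₁, hS₁, fun A _ f hf => ?_⟩
  rw [hsum₁ A f hf, hsum A f (hf.mono ⟨c ^ 2, by ring⟩)]

end Pool.Agent.Helper99.Rohr
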