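import Mathlib

/-!
# Definitions for the reduction of Rohrlich's question to half-systems
-/

set_option autoImplicit false

namespace Pool.Agent.Helper99.Rohr

/-- the rationals `a_1, .., a_r`, none of them in `{0, -1, -2, ..}`, have common denominator
`D ≥ 2` -/
def Adm (D : ℕ) {r : ℕ} (a : Fin r → ℚ) : Prop :=
  2 ≤ D ∧ (∀ (i : Fin r) (n : ℕ), a i ≠ -(n : ℚ)) ∧ ∀ i : Fin r, ∃ z : ℤ, (D : ℚ) * a i = z

/-- `Γ(a_1) ⋯ Γ(a_r)` is an algebraic multiple of `π ^ (r / 2)` -/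
def GammaMult {r : ℕ} (a : Fin r → ℚ) : Prop :=
  ∃ α : ℝ, IsAlgebraic ℚ α ∧
    ∏ i : Fin r, Real.Gamma ((a i : ℚ) : ℝ) = α * Real.pi ^ ((r : ℝ) / 2)

/-- `∑ {m a_i} = r / 2` for all `1 ≤ m < D` prime to `D` -/
def FracId (D : ℕ) {r : ℕ} (a : Fin r → ℚ) : Prop :=
  ∀ m : ℕ, 1 ≤ m → m < D → Nat.Coprime m D → ∑ i : Fin r, Int.fract ((m : ℚ) * a i) = (r : ℚ) / 2

/-- the number of integers among the `a_i` -/
def intCount {r : ℕ} (a : Fin r → ℚ) : ℕ :=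
  (Finset.univ.filter (fun i => Int.fract (a i) = 0)).card

/-- `S` contains exactly one of `j`, `N - j` for all `0 < j < N` with `j ≠ N / 2`, and nothing
else -/
structure HalfSystem (N : ℕ) (S : Finset ℕ) : Prop where
  mem : ∀ j ∈ S, 0 < j ∧ j < N ∧ 2 * j ≠ N
  one : ∀ j, 0 < j → j < N → 2 * j ≠ N → (j ∈ S ↔ N - j ∉ S)

/-- `∏_{j ∈ S} Γ(j / N)` is an algebraic multiple of `π ^ (|S| / 2 + k)` -/
def GammaHalf (N : ℕ) (S : Finset ℕ) (k : ℕ) : Prop :=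
  ∃ α : ℝ, IsAlgebraic ℚ α ∧
    ∏ j ∈ S, Real.Gamma ((j : ℝ) / N) = α * Real.pi ^ ((S.card : ℝ) / 2 + k)

/-- `∑_{j ∈ S} {m j / N} = |S| / 2` for all `1 ≤ m < N` prime to `N` -/
def FracHalf (N : ℕ) (S : Finset ℕ) : Prop :=
  ∀ m : ℕ, 1 ≤ m → m < N → Nat.Coprime m N →
    ∑ j ∈ S, Int.fract ((m : ℚ) * ((j : ℚ) / N)) = (S.card : ℚ) / 2

end Pool.Agent.Helper99.Rohr
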