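import Pool.Agent.Helper99.Rohr.Star

/-!
# Gamma values modulo algebraic numbers are an odd distribution
-/

set_option autoImplicit false

namespace Pool.Agent.Helper99.Rohr

open Finset Real

/-- Gauss's multiplication formula, up to the value at `1` -/
theorem gauss_mul {n : ℕ} (hn : 0 < n) {x : ℝ} (hx : 0 < x) :
    ∏ k ∈ range n, Gamma ((x + k) / n) =
      (∏ k ∈ range n, Gamma ((1 + k) / n)) * (n : ℝ) ^ (1 - x) * Gamma x := by
  have hn' : (0 : ℝ) < n := by exact_mod_cast hn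
  have hpos : ∀ y : ℝ, 0 < y → ∀ k : ℕ, 0 < (y + k) / n := fun y hy k => by positivity
  have hG : ∀ y : ℝ, 0 < y → ∀ k : ℕ, 0 < Gamma ((y + k) / n) := fun y hy k =>
    Gamma_pos_of_pos (hpos y hy k)
  have hP : ∀ y : ℝ, 0 < y → 0 < ∏ k ∈ range n, Gamma ((y + k) / n) := fun y hy =>
    prod_pos (fun k _ => hG y hy k)
  set C : ℝ := ∏ k ∈ range n, Gamma ((1 + k) / n) with hC
  have hC0 : 0 < C := hP 1 one_pos
  let f : ℝ → ℝ := fun y => (n : ℝ) ^ (y - 1) * (∏ k ∈ range n, Gamma ((y + k) / n)) / C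
  have hf_pos : ∀ {y : ℝ}, 0 < y → 0 < f y := by
    intro y hy
    have := hP y hy
    change 0 < (n : ℝ) ^ (y - 1) * (∏ k ∈ range n, Gamma ((y + k) / n)) / C
    positivity
  have hf_one : f 1 = 1 := by
    change (n : ℝ) ^ ((1 : ℝ) - 1) * C / C = 1
    rw [sub_self, rpow_zero, one_mul, div_self hC0.ne']
  have hlog : Set.EqOn (log ∘ f) (fun y => (y - 1) * log n +
      ∑ k ∈ range n, log (Gamma ((y + k) / n)) - log C) (Set.Ioi 0) := by
    intro y hy
    change log ((n : ℝ) ^ (y - 1) * (∏ k ∈ range n, Gamma ((y + k) / n)) / C) = _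
    have h1 : (n : ℝ) ^ (y - 1) ≠ 0 := (rpow_pos_of_pos hn' _).ne'
    have h2 := (hP y hy).ne'
    rw [log_div (mul_ne_zero h1 h2) hC0.ne', log_mul h1 h2, log_rpow hn',
      log_prod (fun k _ => (hG y hy k).ne')]
  have hf_conv : ConvexOn ℝ (Set.Ioi 0) (log ∘ f) := by
    refine ConvexOn.congr ?_ hlog.symm
    refine ⟨convex_Ioi 0, ?_⟩
    intro y hy z hz a b ha hb hab
    simp only [smul_eq_mul]
    have key : ∀ k ∈ range n, log (Gamma ((a * y + b * z + k) / n)) ≤
        a * log (Gamma ((y + k) / n)) + b * log (Gamma ((z + k) / n)) := by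
      intro k _
      have h1 := convexOn_log_Gamma.2 (hpos y hy k) (hpos z hz k) ha hb hab
      simp only [smul_eq_mul, Function.comp] at h1
      have h2 : a * ((y + k) / n) + b * ((z + k) / n) = (a * y + b * z + k) / n := by
        have hb' : b = 1 - a := by linarith
        rw [hb']
        field_simp
        ring
      rw [h2] at h1
      exact h1
    have h3 := sum_le_sum key
    rw [sum_add_distrib, ← mul_sum, ← mul_sum] at h3
    have hb' : b = 1 - a := by linarith
    subst hb'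
    nlinarith [h3]
  have hf_feq : ∀ {y : ℝ}, 0 < y → f (y + 1) = y * f y := by
    intro y hy
    change (n : ℝ) ^ (y + 1 - 1) * (∏ k ∈ range n, Gamma ((y + 1 + k) / n)) / C =
      y * ((n : ℝ) ^ (y - 1) * (∏ k ∈ range n, Gamma ((y + k) / n)) / C)
    have h1 : (∏ k ∈ range n, Gamma ((y + 1 + k) / n)) * Gamma (y / n) =
        (∏ k ∈ range n, Gamma ((y + k) / n)) * Gamma (y / n + 1) := by
      have e1 := prod_range_succ (fun k : ℕ => Gamma ((y + k) / n)) n
      have e2 := prod_range_succ' (fun k : ℕ => Gamma ((y + k) / n)) n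
      have e3 : (y + (n : ℕ)) / (n : ℝ) = y / n + 1 := by
        field_simp
      have e4 : ∏ k ∈ range n, Gamma ((y + ((k + 1 : ℕ) : ℝ)) / n) =
          ∏ k ∈ range n, Gamma ((y + 1 + k) / n) := by
        apply prod_congr rfl
        intro k _
        congr 2
        push_cast
        ring
      rw [e4] at e2
      simp only [Nat.cast_zero, add_zero] at e2
      rw [e3] at e1
      rw [← e2, e1]
    have h2 : 0 < y / n := by positivity
    rw [Gamma_add_one h2.ne'] at h1
    have h3 : Gamma (y / n) ≠ 0 := (Gamma_pos_of_pos h2).ne'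
    have h4 : (∏ k ∈ range n, Gamma ((y + 1 + k) / n)) =
        (∏ k ∈ range n, Gamma ((y + k) / n)) * (y / n) := by
      apply mul_right_cancel₀ h3
      rw [h1]
      ring
    have h5 : (n : ℝ) ^ (y + 1 - 1) = (n : ℝ) ^ (y - 1) * n := by
      rw [← rpow_add_one hn'.ne']
      congr 1
      ring
    rw [h4, h5]
    field_simp
  have h6 := eq_Gamma_of_log_convex hf_conv hf_feq hf_pos hf_one hx
  have h7 : (n : ℝ) ^ (x - 1) * (∏ k ∈ range n, Gamma ((x + k) / n)) / C = Gamma x := h6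
  rw [div_eq_iff hC0.ne'] at h7
  have h8 : (n : ℝ) ^ (1 - x) * (n : ℝ) ^ (x - 1) = 1 := by
    rw [← rpow_add hn']
    simp
  calc ∏ k ∈ range n, Gamma ((x + k) / n)
      = (n : ℝ) ^ (1 - x) * (n : ℝ) ^ (x - 1) * ∏ k ∈ range n, Gamma ((x + k) / n) := by
        rw [h8, one_mul]
    _ = (n : ℝ) ^ (1 - x) * ((n : ℝ) ^ (x - 1) * ∏ k ∈ range n, Gamma ((x + k) / n)) := by ring
    _ = _ := by
        rw [h7]
        ring

/-- the real numbers whose exponential is algebraic -/
def LogAlg : AddSubgroup ℝ where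
  carrier := {y | IsAlgebraic ℚ (exp y)}
  zero_mem' := by
    change IsAlgebraic ℚ (exp 0)
    rw [exp_zero]
    exact isAlgebraic_one
  add_mem' := by
    intro x y hx hy
    change IsAlgebraic ℚ (exp (x + y))
    rw [exp_add]
    exact IsAlgebraic.mul hx hy
  neg_mem' := by
    intro x hx
    change IsAlgebraic ℚ (exp (-x))
    rw [exp_neg]
    exact IsAlgebraic.inv hx

theorem mem_LogAlg {y : ℝ} : y ∈ LogAlg ↔ IsAlgebraic ℚ (exp y) := Iff.rfl

theorem LogAlg_div {n : ℕ} (hn : 0 < n) {y : ℝ} (h : (n : ℝ) * y ∈ LogAlg) : y ∈ LogAlg := by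
  rw [mem_LogAlg, exp_nat_mul] at h
  exact IsAlgebraic.of_pow hn h

/-- a rational multiple of the logarithm of a positive integer -/
theorem LogAlg_rat {n : ℕ} (hn : 0 < n) (q : ℚ) : (q : ℝ) * log n ∈ LogAlg := by
  have hn' : (0 : ℝ) < n := by exact_mod_cast hn
  apply LogAlg_div q.pos
  have h1 : (q.den : ℝ) * ((q : ℝ) * log n) = (q.num : ℝ) * log n := by
    have h2 : (q.den : ℝ) * (q : ℝ) = q.num := by
      have h3 : (q.den : ℚ) * q = q.num := by
        rw [mul_comm]
        exact Rat.mul_den_eq_num q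
      exact_mod_cast h3
    rw [← mul_assoc, h2]
  rw [h1, mem_LogAlg, mul_comm, exp_mul, exp_log hn', rpow_intCast]
  have h4 : ((n : ℝ) ^ q.num) = (((n : ℚ) ^ q.num : ℚ) : ℝ) := by push_cast; rfl
  rw [h4]
  exact isAlgebraic_algebraMap (A := ℝ) ((n : ℚ) ^ q.num)

/-- the normalised logarithm of a gamma value -/
noncomputable def lg (x : ℚ) : ℝ := log (Gamma x) - log π / 2

theorem lg_refl {x : ℚ} (h0 : 0 < x) (h1 : x < 1) : lg (1 - x) + lg x ∈ LogAlg := by
  have h0' : (0 : ℝ) < x := by exact_mod_cast h0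
  have h1' : (x : ℝ) < 1 := by exact_mod_cast h1
  have g1 : 0 < Gamma (x : ℝ) := Gamma_pos_of_pos h0'
  have g2 : 0 < Gamma (1 - (x : ℝ)) := Gamma_pos_of_pos (by linarith)
  have hs : 0 < sin (π * x) := sin_pos_of_pos_of_lt_pi (by positivity) (by nlinarith [pi_pos])
  have h2 : lg (1 - x) + lg x = - log (sin (π * x)) := by
    unfold lg
    push_cast
    have h3 : log (Gamma (1 - (x : ℝ))) + log (Gamma (x : ℝ)) = log π - log (sin (π * x)) := by
      rw [← log_mul g2.ne' g1.ne', ← log_div pi_ne_zero hs.ne', mul_comm]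
      rw [Real.Gamma_mul_Gamma_one_sub]
    linarith
  rw [h2]
  apply LogAlg.neg_mem
  rw [mem_LogAlg, exp_log hs, mul_comm]
  exact (IsFractionRing.isAlgebraic_iff ℤ ℚ ℝ).1 (isAlgebraic_sin_rat_mul_pi x)

theorem gauss_const {n : ℕ} (hn : 0 < n) :
    ∑ k ∈ range n, log (Gamma ((1 + k) / n)) - ((n : ℝ) - 1) / 2 * log π ∈ LogAlg := by
  have hn' : (0 : ℝ) < n := by exact_mod_cast hn
  obtain ⟨m, rfl⟩ : ∃ m, n = m + 1 := ⟨n - 1, by omega⟩
  rw [sum_range_succ]
  have e1 : (1 + (m : ℝ)) / ((m + 1 : ℕ) : ℝ) = 1 := by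
    push_cast
    rw [add_comm]
    field_simp
  rw [e1, Gamma_one, log_one, add_zero]
  apply LogAlg_div (n := 2) two_pos
  have e2 : ∑ k ∈ range m, log (Gamma ((1 + (k : ℝ)) / ((m + 1 : ℕ) : ℝ))) =
      ∑ k ∈ range m, log (Gamma (1 - (1 + (k : ℝ)) / ((m + 1 : ℕ) : ℝ))) := by
    rw [← sum_range_reflect]
    apply sum_congr rfl
    intro k hk
    rw [mem_range] at hk
    congr 2
    have : ((m - 1 - k : ℕ) : ℝ) = m - 1 - k := by
      rw [Nat.cast_sub (by omega), Nat.cast_sub (by omega)]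
      simp
    rw [this]
    push_cast
    field_simp
    ring
  have e3 : ((2 : ℕ) : ℝ) * (∑ k ∈ range m, log (Gamma ((1 + (k : ℝ)) / ((m + 1 : ℕ) : ℝ))) -
      (((m + 1 : ℕ) : ℝ) - 1) / 2 * log π) =
      ∑ k ∈ range m, (lg (1 - ((1 + k : ℕ) : ℚ) / ((m + 1 : ℕ) : ℚ)) +
        lg (((1 + k : ℕ) : ℚ) / ((m + 1 : ℕ) : ℚ))) := by
    rw [sum_add_distrib]
    unfold lg
    rw [sum_sub_distrib, sum_sub_distrib, sum_const, card_range, nsmul_eq_mul]
    push_cast
    push_cast at e2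
    rw [← e2]
    ring
  rw [e3]
  apply sum_mem
  intro k hk
  rw [mem_range] at hk
  apply lg_refl
  · positivity
  · rw [div_lt_one (by positivity)]
    exact_mod_cast (by omega : 1 + k < m + 1)

/-- classes of gamma values -/
noncomputable def gam (x : ℚ) : ℝ ⧸ LogAlg := QuotientAddGroup.mk (lg x)

theorem gam_oddDist (N : ℕ) : OddDist N gam := by
  constructor
  · intro x hx
    rw [eq_neg_iff_add_eq_zero]
    change (QuotientAddGroup.mk (lg (1 - x) + lg x) : ℝ ⧸ LogAlg) = 0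
    rw [QuotientAddGroup.eq_zero_iff]
    exact lg_refl hx.1 hx.2.1
  · intro n hn x hx _
    have hn' : (0 : ℝ) < n := by exact_mod_cast hn
    have hx' : (0 : ℝ) < x := by exact_mod_cast hx.1
    have h1 : ∑ k ∈ range n, gam ((x + k) / n) =
        QuotientAddGroup.mk (∑ k ∈ range n, lg ((x + k) / n)) := by
      have := map_sum (QuotientAddGroup.mk' LogAlg) (fun k : ℕ => lg ((x + k) / n)) (range n)
      exact this.symm
    rw [h1]
    unfold gam
    rw [QuotientAddGroup.eq]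
    have h2 : -(∑ k ∈ range n, lg ((x + k) / n)) + lg x =
        -(∑ k ∈ range n, log (Gamma ((1 + k) / n)) - ((n : ℝ) - 1) / 2 * log π) -
          ((1 - x : ℚ) : ℝ) * log n := by
      unfold lg
      rw [sum_sub_distrib, sum_const, card_range, nsmul_eq_mul]
      have h3 := congrArg log (gauss_mul hn hx')
      have g1 : ∀ k ∈ range n, Gamma (((x : ℝ) + k) / n) ≠ 0 := fun k _ =>
        (Gamma_pos_of_pos (by positivity)).ne'
      have g2 : ∀ k ∈ range n, Gamma ((1 + (k : ℝ)) / n) ≠ 0 := fun k _ =>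
        (Gamma_pos_of_pos (by positivity)).ne'
      have g3 : (n : ℝ) ^ (1 - (x : ℝ)) ≠ 0 := (rpow_pos_of_pos hn' _).ne'
      rw [log_prod g1, log_mul (mul_ne_zero (prod_ne_zero_iff.2 g2) g3)
        (Gamma_pos_of_pos hx').ne', log_mul (prod_ne_zero_iff.2 g2) g3, log_prod g2,
        log_rpow hn'] at h3
      push_cast
      rw [h3]
      ring
    rw [h2]
    exact LogAlg.sub_mem (LogAlg.neg_mem (gauss_const hn)) (LogAlg_rat hn (1 - x))

end Pool.Agent.Helper99.Rohr
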