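import Pool.Agent.Helper99.Rohr.Star

/-!
# The sawtooth function is an odd distribution
-/

set_option autoImplicit false

namespace Pool.Agent.Helper99.Rohr

open Finset

/-- the sawtooth function -/
def saw (m : ℕ) (x : ℚ) : ℚ := Int.fract ((m : ℚ) * x) - 1 / 2

theorem not_int {N m : ℕ} (hm : Nat.Coprime m N) {x : ℚ} (hx : IsPt N x) (w : ℤ) :
    (m : ℚ) * x ≠ w := by
  intro hw
  obtain ⟨h1, h2, z, hz⟩ := hx
  have hb : (m : ℤ) * Nat.gcdA m N + N * Nat.gcdB m N = 1 := by
    have := Nat.gcd_eq_gcd_ab m N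
    rw [hm] at this
    exact_mod_cast this.symm
  have hb' : (m : ℚ) * Nat.gcdA m N + N * Nat.gcdB m N = 1 := by exact_mod_cast hb
  have h3 : x = ((w * Nat.gcdA m N + z * Nat.gcdB m N : ℤ) : ℚ) := by
    push_cast
    rw [← hw, ← hz]
    calc x = x * ((m : ℚ) * Nat.gcdA m N + N * Nat.gcdB m N) := by rw [hb', mul_one]
      _ = _ := by ring
  rw [h3] at h1 h2
  have h4 : 0 < w * Nat.gcdA m N + z * Nat.gcdB m N := by exact_mod_cast h1
  have h5 : w * Nat.gcdA m N + z * Nat.gcdB m N < 1 := by exact_mod_cast h2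
  omega

theorem sum_perm_mod {n m : ℕ} (hn : 0 < n) (hm : Nat.Coprime m n) (c : ℕ) (F : ℕ → ℚ) :
    ∑ k ∈ range n, F ((c + m * k) % n) = ∑ k ∈ range n, F k := by
  have hmaps : ∀ k ∈ range n, (c + m * k) % n ∈ range n := fun k _ => mem_range.2 (Nat.mod_lt _ hn)
  have hinj : Set.InjOn (fun k => (c + m * k) % n) (range n) := by
    intro k hk l hl hkl
    have h1 : c + m * k ≡ c + m * l [MOD n] := hkl
    have h2 : m * k ≡ m * l [MOD n] := Nat.ModEq.add_left_cancel' c h1
    have h3 : k ≡ l [MOD n] := Nat.ModEq.cancel_left_of_coprime (by rw [Nat.gcd_comm]; exact hm) h2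
    exact Nat.ModEq.eq_of_lt_of_lt h3 (mem_range.1 hk) (mem_range.1 hl)
  apply Finset.sum_nbij (fun k => (c + m * k) % n) hmaps hinj
  · exact Finset.surjOn_of_injOn_of_card_le _ hmaps hinj le_rfl
  · intro k _
    rfl

theorem sum_fract {n m : ℕ} (hn : 0 < n) (hm : Nat.Coprime m n) {x : ℚ} (hx : 0 < x) :
    ∑ k ∈ range n, Int.fract ((m : ℚ) * ((x + k) / n)) = Int.fract ((m : ℚ) * x) + (n - 1) / 2 := by
  have hn' : (0 : ℚ) < n := by exact_mod_cast hn
  set t := Int.fract ((m : ℚ) * x) with ht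
  have ht0 : 0 ≤ t := Int.fract_nonneg _
  have ht1 : t < 1 := Int.fract_lt_one _
  obtain ⟨c, hc⟩ : ∃ c : ℕ, ⌊(m : ℚ) * x⌋ = c :=
    ⟨⌊(m : ℚ) * x⌋.toNat, (Int.toNat_of_nonneg (Int.floor_nonneg.2 (by positivity))).symm⟩
  have hmx : (m : ℚ) * x = t + c := by
    have := Int.fract_add_floor ((m : ℚ) * x)
    rw [hc] at this
    exact_mod_cast this.symm
  have key : ∀ k ∈ range n, Int.fract ((m : ℚ) * ((x + k) / n)) =
      (fun j : ℕ => (t + j) / n) ((c + m * k) % n) := by
    intro k _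
    have hlt : (c + m * k) % n < n := Nat.mod_lt _ hn
    have hlt' : (((c + m * k) % n : ℕ) : ℚ) + 1 ≤ n := by exact_mod_cast hlt
    rw [Int.fract_eq_iff]
    refine ⟨by positivity, by rw [div_lt_one hn']; linarith, ((c + m * k) / n : ℕ), ?_⟩
    have h1 : (((c + m * k : ℕ)) : ℚ) = n * ((c + m * k) / n : ℕ) + ((c + m * k) % n : ℕ) := by
      exact_mod_cast (Nat.div_add_mod (c + m * k) n).symm
    have h2 : (m : ℚ) * (x + k) = t + ((c + m * k : ℕ) : ℚ) := by
      push_cast
      linarith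
    have h3 : (m : ℚ) * ((x + k) / n) = (t + ((c + m * k : ℕ) : ℚ)) / n := by
      rw [← h2]
      ring
    rw [h3, h1, Int.cast_natCast]
    field_simp
    ring
  rw [sum_congr rfl key, sum_perm_mod hn hm c (fun j : ℕ => (t + j) / n)]
  rw [← sum_div, sum_add_distrib, sum_const, card_range, nsmul_eq_mul]
  have h4 : ∑ i ∈ range n, (i : ℚ) = n * (n - 1) / 2 := by
    have h5 := Finset.sum_range_id_mul_two n
    have h6 : ((∑ i ∈ range n, i : ℕ) : ℚ) * 2 = n * ((n - 1 : ℕ) : ℚ) := by exact_mod_cast h5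
    rw [Nat.cast_sub hn] at h6
    push_cast at h6
    linarith
  rw [h4]
  field_simp

theorem saw_oddDist {N m : ℕ} (hN : 0 < N) (hm : Nat.Coprime m N) : OddDist N (saw m) := by
  constructor
  · intro x hx
    unfold saw
    have h1 := not_int hm hx
    have h2 : (m : ℚ) * (1 - x) = -((m : ℚ) * x) + (m : ℤ) := by
      push_cast
      ring
    have h3 : Int.fract ((m : ℚ) * x) ≠ 0 := by
      intro h
      rw [Int.fract_eq_iff] at h
      obtain ⟨-, -, z, hz⟩ := h
      exact h1 z (by rw [← hz]; ring)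
    rw [h2, Int.fract_add_intCast, Int.fract_neg h3]
    ring
  · intro n hn x hx hk
    by_cases hn1 : n = 1
    · subst hn1
      simp
    · have hn2 : 2 ≤ n := by omega
      have hdvd : n ∣ N := by
        obtain ⟨-, -, z0, hz0⟩ := hk 0 hn
        obtain ⟨-, -, z1, hz1⟩ := hk 1 (by omega)
        have hn' : (n : ℚ) ≠ 0 := by exact_mod_cast hn.ne'
        have h1 : (N : ℚ) = n * (z1 - z0) := by
          rw [← hz0, ← hz1]
          push_cast
          field_simp
          ring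
        have h2 : (N : ℤ) = n * (z1 - z0) := by exact_mod_cast h1
        have h3 : (n : ℤ) ∣ N := ⟨_, h2⟩
        exact_mod_cast h3
      have hmn : Nat.Coprime m n := Nat.Coprime.coprime_dvd_right hdvd hm
      unfold saw
      rw [sum_sub_distrib, sum_fract hn hmn hx.1, sum_const, card_range, nsmul_eq_mul]
      ring

end Pool.Agent.Helper99.Rohr
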