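import Pool.Agent.Helper99.Rohr.Defs
import Pool.Agent.Helper99.Rohr.Comb
import Pool.Agent.Helper99.Rohr.Saw
import Pool.Agent.Helper99.Rohr.Gam

/-!
# Transfer of tuples to half-systems
-/

set_option autoImplicit false

namespace Pool.Agent.Helper99.Rohr

open Finset Real

/-! ### half-systems of integers -/

theorem toNat_sys {N : ℕ} (hN : 0 < N) {T : Finset ℚ} (hT : HalfSys N T) :
    ∃ S : Finset ℕ, HalfSystem N S ∧
      T = S.image (fun j : ℕ => (j : ℚ) / N) := by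
  classical
  have hN' : (0 : ℚ) < N := by exact_mod_cast hN
  have hpt : ∀ j : ℕ, 0 < j → j < N → IsPt N ((j : ℚ) / N) := by
    intro j h1 h2
    have h1' : (0 : ℚ) < j := by exact_mod_cast h1
    have h2' : (j : ℚ) < N := by exact_mod_cast h2
    refine ⟨by positivity, by rw [div_lt_one hN']; exact h2', j, ?_⟩
    rw [Int.cast_natCast]
    field_simp
  have hhalf : ∀ j : ℕ, (j : ℚ) / N = 1 / 2 ↔ 2 * j = N := by
    intro j
    rw [div_eq_div_iff hN'.ne' two_ne_zero, one_mul]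
    constructor
    · intro h
      have : ((2 * j : ℕ) : ℚ) = N := by push_cast; linarith
      exact_mod_cast this
    · intro h
      have : ((2 * j : ℕ) : ℚ) = N := by exact_mod_cast h
      push_cast at this
      linarith
  have hrefl : ∀ j : ℕ, j < N → ((N - j : ℕ) : ℚ) / N = 1 - (j : ℚ) / N := by
    intro j hj
    rw [Nat.cast_sub hj.le]
    field_simp
  have hT2 : T = ((Finset.Ioo 0 N).filter (fun j : ℕ => (j : ℚ) / N ∈ T)).image
      (fun j : ℕ => (j : ℚ) / N) := by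
    ext x
    rw [mem_image]
    constructor
    · intro hx
      have h1 := (mem_pts hN).2 (hT.pt x hx)
      unfold pts at h1
      rw [mem_image] at h1
      obtain ⟨j, hj, rfl⟩ := h1
      exact ⟨j, mem_filter.2 ⟨hj, hx⟩, rfl⟩
    · rintro ⟨j, hj, rfl⟩
      exact (mem_filter.1 hj).2
  refine ⟨_, ⟨?_, ?_⟩, hT2⟩
  · intro j hj
    rw [mem_filter, mem_Ioo] at hj
    refine ⟨hj.1.1, hj.1.2, fun h => ?_⟩
    have h1 := (hhalf j).2 h
    have h2 := hj.2
    rw [h1] at h2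
    exact hT.mid h2
  · intro j h1 h2 h3
    have h4 := hT.one _ (hpt j h1 h2) (fun h => h3 ((hhalf j).1 h))
    rw [mem_filter, mem_filter, mem_Ioo, mem_Ioo, hrefl j h2]
    constructor
    · rintro ⟨-, h5⟩ ⟨-, h6⟩
      exact h4.1 h5 h6
    · intro h5
      refine ⟨⟨h1, h2⟩, h4.2 (fun h6 => h5 ⟨⟨by omega, by omega⟩, h6⟩)⟩

theorem sum_image_sys {N : ℕ} (hN : 0 < N) (S : Finset ℕ) {A : Type} [AddCommMonoid A]
    (F : ℚ → A) : ∑ x ∈ S.image (fun j : ℕ => (j : ℚ) / N), F x = ∑ j ∈ S, F ((j : ℚ) / N) := by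
  have hN' : (0 : ℚ) < N := by exact_mod_cast hN
  apply sum_image
  intro i _ j _ h
  have h1 : (i : ℚ) / N = (j : ℚ) / N := h
  rw [div_left_inj' hN'.ne'] at h1
  exact_mod_cast h1

/-! ### the gamma side -/

theorem exp_lg {x : ℚ} (hx : 0 < x) : exp (lg x) = Gamma x / π ^ ((1 : ℝ) / 2) := by
  have hx' : (0 : ℝ) < x := by exact_mod_cast hx
  unfold lg
  rw [exp_sub, exp_log (Gamma_pos_of_pos hx'), rpow_def_of_pos pi_pos]
  congr 2
  ring

theorem gammaHalf_iff {N : ℕ} (hN : 0 < N) {S : Finset ℕ} (hS : ∀ j ∈ S, 0 < j) (k : ℕ) :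
    GammaHalf N S k ↔ ∑ j ∈ S, lg ((j : ℚ) / N) - k * log π ∈ LogAlg := by
  have h1 : exp (∑ j ∈ S, lg ((j : ℚ) / N) - k * log π) =
      (∏ j ∈ S, Gamma ((j : ℝ) / N)) / π ^ ((S.card : ℝ) / 2 + k) := by
    rw [exp_sub, exp_sum]
    have h2 : ∏ j ∈ S, exp (lg ((j : ℚ) / N)) =
        ∏ j ∈ S, (Gamma ((j : ℝ) / N) / π ^ ((1 : ℝ) / 2)) := by
      apply prod_congr rfl
      intro j hj
      have hN' : (0 : ℚ) < N := by exact_mod_cast hN
      have hj' : (0 : ℚ) < j := by exact_mod_cast hS j hj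
      rw [exp_lg (by positivity)]
      push_cast
      rfl
    rw [h2, prod_div_distrib, Finset.prod_const, ← rpow_natCast, ← rpow_mul pi_pos.le, div_div]
    congr 1
    rw [rpow_add pi_pos]
    congr 1
    · congr 1
      ring
    · rw [mul_comm, exp_mul, exp_log pi_pos]
  rw [mem_LogAlg, h1]
  have hp : π ^ ((S.card : ℝ) / 2 + k) ≠ 0 := (rpow_pos_of_pos pi_pos _).ne'
  unfold GammaHalf
  constructor
  · rintro ⟨α, hα, h⟩
    rw [h, mul_div_assoc, div_self hp, mul_one]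
    exact hα
  · intro h
    exact ⟨_, h, by rw [div_mul_cancel₀ _ hp]⟩

theorem gamma_int {t : ℝ} (ht0 : 0 < t) (ht1 : t < 1) (htq : ∃ q : ℚ, (q : ℝ) = t) (z : ℤ) :
    ∃ ρ : ℚ, ρ ≠ 0 ∧ Gamma (t + z) = ρ * Gamma t := by
  obtain ⟨q, hq⟩ := htq
  have hne : ∀ z : ℤ, t + z ≠ 0 := by
    intro z h
    have h1 : (0 : ℝ) < ((-z : ℤ) : ℝ) := by push_cast; linarith
    have h2 : ((-z : ℤ) : ℝ) < 1 := by push_cast; linarith
    have h3 : 0 < -z := by exact_mod_cast h1
    have h4 : -z < 1 := by exact_mod_cast h2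
    omega
  induction z using Int.induction_on with
  | zero => exact ⟨1, one_ne_zero, by simp⟩
  | succ i ih =>
    obtain ⟨ρ, h1, h2⟩ := ih
    have h3 := hne i
    refine ⟨(q + i) * ρ, mul_ne_zero (fun h => h3 ?_) h1, ?_⟩
    · rw [← hq]
      have : ((q + (i : ℚ) : ℚ) : ℝ) = 0 := by rw [h]; simp
      push_cast at this ⊢
      exact this
    · have h4 : t + ((i + 1 : ℤ) : ℝ) = (t + i) + 1 := by push_cast; ring
      rw [h4, Gamma_add_one (by exact_mod_cast h3)]
      have h5 : Gamma (t + (i : ℝ)) = ρ * Gamma t := by exact_mod_cast h2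
      rw [h5]
      push_cast
      rw [hq]
      ring
  | pred i ih =>
    obtain ⟨ρ, h1, h2⟩ := ih
    have h3 := hne (-i - 1)
    refine ⟨ρ / (q + (-i - 1)), div_ne_zero h1 (fun h => h3 ?_), ?_⟩
    · rw [← hq]
      have : ((q + (-(i : ℚ) - 1) : ℚ) : ℝ) = 0 := by rw [h]; simp
      push_cast at this ⊢
      exact this
    · have h4 : t + ((-i : ℤ) : ℝ) = (t + ((-i - 1 : ℤ) : ℝ)) + 1 := by push_cast; ring
      rw [h4, Gamma_add_one h3] at h2
      rw [eq_comm]
      push_cast at h2 h3 ⊢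
      rw [hq, div_mul_eq_mul_div, ← h2]
      field_simp

theorem gammaMult_iff {D r : ℕ} {a : Fin r → ℚ} (ha : Adm D a) :
    GammaMult a ↔ ∑ i ∈ univ.filter (fun i => Int.fract (a i) ≠ 0), lg (Int.fract (a i)) -
      (intCount a : ℝ) / 2 * log π ∈ LogAlg := by
  classical
  set I : Finset (Fin r) := univ.filter (fun i => Int.fract (a i) ≠ 0) with hI
  set J : Finset (Fin r) := univ.filter (fun i => Int.fract (a i) = 0) with hJ
  -- rational factors
  have hfac : ∀ i, ∃ ρ : ℚ, ρ ≠ 0 ∧ Gamma (a i) =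
      ρ * (if Int.fract (a i) ≠ 0 then Gamma ((Int.fract (a i) : ℚ) : ℝ) else 1) := by
    intro i
    by_cases h : Int.fract (a i) = 0
    · rw [if_neg (by simpa using h)]
      rw [Int.fract_eq_iff] at h
      obtain ⟨-, -, z, hz⟩ := h
      rw [sub_zero] at hz
      have hzpos : 0 < z := by
        by_contra hcon
        apply ha.2.1 i (-z).toNat
        have h1 : (((-z).toNat : ℕ) : ℤ) = -z := Int.toNat_of_nonneg (by omega)
        have h2 : (((-z).toNat : ℕ) : ℚ) = -z := by exact_mod_cast h1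
        rw [h2, hz]
        ring
      obtain ⟨n, rfl⟩ : ∃ n : ℕ, z = n + 1 := ⟨(z - 1).toNat, by omega⟩
      refine ⟨(n.factorial : ℚ), by exact_mod_cast n.factorial_ne_zero, ?_⟩
      rw [hz]
      push_cast
      rw [Gamma_nat_eq_factorial, mul_one]
    · rw [if_pos h]
      have h0 : 0 < Int.fract (a i) := lt_of_le_of_ne (Int.fract_nonneg _) (Ne.symm h)
      have h1 : Int.fract (a i) < 1 := Int.fract_lt_one _
      obtain ⟨ρ, h2, h3⟩ := gamma_int (t := ((Int.fract (a i) : ℚ) : ℝ)) (by exact_mod_cast h0)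
        (by exact_mod_cast h1) ⟨_, rfl⟩ ⌊a i⌋
      refine ⟨ρ, h2, ?_⟩
      rw [← h3]
      congr 1
      have := Int.fract_add_floor (a i)
      exact_mod_cast this.symm
  choose ρ hρ0 hρ using hfac
  have hprod : ∏ i, Gamma (a i) = ((∏ i, ρ i : ℚ) : ℝ) * ∏ i ∈ I, Gamma ((Int.fract (a i) : ℚ) : ℝ) := by
    rw [prod_congr rfl (fun i _ => hρ i), prod_mul_distrib, hI, prod_filter]
    push_cast
    rfl
  have hcard : (r : ℝ) = I.card + intCount a := by
    have h1 : I.card + J.card = r := by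
      rw [hI, hJ, add_comm]
      have := Finset.card_filter_add_card_filter_not (s := (univ : Finset (Fin r)))
        (fun i => Int.fract (a i) = 0)
      simpa using this
    unfold intCount
    exact_mod_cast h1.symm
  have h1 : exp (∑ i ∈ I, lg (Int.fract (a i)) - (intCount a : ℝ) / 2 * log π) =
      (∏ i ∈ I, Gamma ((Int.fract (a i) : ℚ) : ℝ)) / π ^ ((r : ℝ) / 2) := by
    rw [exp_sub, exp_sum]
    have h2 : ∏ i ∈ I, exp (lg (Int.fract (a i))) =
        ∏ i ∈ I, (Gamma ((Int.fract (a i) : ℚ) : ℝ) / π ^ ((1 : ℝ) / 2)) := by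
      apply prod_congr rfl
      intro i hi
      rw [exp_lg]
      exact lt_of_le_of_ne (Int.fract_nonneg _) (Ne.symm (mem_filter.1 hi).2)
    rw [h2, prod_div_distrib, Finset.prod_const, ← rpow_natCast, ← rpow_mul pi_pos.le, div_div]
    congr 1
    rw [hcard, add_div, rpow_add pi_pos]
    congr 1
    · congr 1
      ring
    · rw [mul_comm, exp_mul, exp_log pi_pos]
  rw [mem_LogAlg, h1]
  have hp : π ^ ((r : ℝ) / 2) ≠ 0 := (rpow_pos_of_pos pi_pos _).ne'
  have hR0 : ((∏ i, ρ i : ℚ) : ℝ) ≠ 0 := by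
    exact_mod_cast prod_ne_zero_iff.2 (fun i _ => hρ0 i)
  have hRalg : IsAlgebraic ℚ ((∏ i, ρ i : ℚ) : ℝ) := isAlgebraic_algebraMap (A := ℝ) _
  unfold GammaMult
  rw [hprod]
  constructor
  · rintro ⟨α, hα, h⟩
    have h3 : (∏ i ∈ I, Gamma ((Int.fract (a i) : ℚ) : ℝ)) / π ^ ((r : ℝ) / 2) =
        ((∏ i, ρ i : ℚ) : ℝ)⁻¹ * α := by
      field_simp
      linarith [h]
    rw [h3]
    exact hRalg.inv.mul hα
  · intro h
    refine ⟨_, hRalg.mul h, ?_⟩
    field_simp

end Pool.Agent.Helper99.Rohr
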