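import Pool.Agent.Helper99.Rohr.Link

/-!
# Reduction of Rohrlich's question to half-systems
-/

set_option autoImplicit false

namespace Pool.Agent.Helper99.Rohr

open Finset Real

/-! ### the sawtooth side -/

/-- the sum of the nonzero sawtooth values -/
def sawSum {r : ℕ} (a : Fin r → ℚ) (m : ℕ) : ℚ :=
  ∑ i ∈ univ.filter (fun i => Int.fract (a i) ≠ 0), (Int.fract ((m : ℚ) * a i) - 1 / 2)

theorem fract_mul_fract (m : ℕ) (x : ℚ) :
    Int.fract ((m : ℚ) * Int.fract x) = Int.fract ((m : ℚ) * x) := by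
  have h : (m : ℚ) * Int.fract x = (m : ℚ) * x - ((m * ⌊x⌋ : ℤ) : ℚ) := by
    push_cast
    unfold Int.fract
    ring
  rw [h, Int.fract_sub_intCast]

theorem fract_congr {D : ℕ} {x : ℚ} (hx : ∃ z : ℤ, (D : ℚ) * x = z) {m m' : ℕ}
    (h : m ≡ m' [MOD D]) : Int.fract ((m : ℚ) * x) = Int.fract ((m' : ℚ) * x) := by
  obtain ⟨z, hz⟩ := hx
  have h1 : (D : ℤ) ∣ (m : ℤ) - m' := (Nat.modEq_iff_dvd.1 h.symm)
  obtain ⟨t, ht⟩ := h1
  have h2 : (m : ℚ) = m' + D * t := by
    have : (m : ℤ) = m' + D * t := by linarith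
    exact_mod_cast this
  rw [h2]
  have h3 : ((m' : ℚ) + D * t) * x = m' * x + ((t * z : ℤ) : ℚ) := by
    push_cast
    rw [← hz]
    ring
  rw [h3, Int.fract_add_intCast]

theorem sawSum_congr {D r : ℕ} {a : Fin r → ℚ} (ha : Adm D a) {m m' : ℕ} (h : m ≡ m' [MOD D]) :
    sawSum a m = sawSum a m' := by
  unfold sawSum
  apply sum_congr rfl
  intro i _
  rw [fract_congr (ha.2.2 i) h]

theorem sum_fract_eq {r : ℕ} (a : Fin r → ℚ) (m : ℕ) :
    ∑ i : Fin r, Int.fract ((m : ℚ) * a i) = sawSum a m + ((r : ℚ) - intCount a) / 2 := by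
  classical
  have h1 : ∑ i : Fin r, Int.fract ((m : ℚ) * a i) =
      ∑ i ∈ univ.filter (fun i => Int.fract (a i) ≠ 0), Int.fract ((m : ℚ) * a i) := by
    rw [sum_filter]
    apply sum_congr rfl
    intro i _
    by_cases h : Int.fract (a i) = 0
    · rw [if_neg (by simpa using h), ← fract_mul_fract, h, mul_zero, Int.fract_zero]
    · rw [if_pos h]
  have h2 : ((univ.filter (fun i => Int.fract (a i) ≠ 0)).card : ℚ) = r - intCount a := by
    have h3 := Finset.card_filter_add_card_filter_not (s := (univ : Finset (Fin r)))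
      (fun i => Int.fract (a i) = 0)
    rw [card_univ, Fintype.card_fin] at h3
    unfold intCount
    have h4 : (((univ.filter (fun i => Int.fract (a i) = 0)).card +
      (univ.filter (fun i => ¬ Int.fract (a i) = 0)).card : ℕ) : ℚ) = r := by
      exact_mod_cast h3
    push_cast at h4
    linarith
  rw [h1]
  unfold sawSum
  rw [sum_sub_distrib, sum_const, nsmul_eq_mul, h2]
  ring

theorem fracId_iff_sawSum {D r : ℕ} {a : Fin r → ℚ} :
    FracId D a ↔ ∀ m, 1 ≤ m → m < D → Nat.Coprime m D → sawSum a m = (intCount a : ℚ) / 2 := by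
  unfold FracId
  constructor
  · intro h m h1 h2 h3
    have := h m h1 h2 h3
    rw [sum_fract_eq] at this
    linarith
  · intro h m h1 h2 h3
    rw [sum_fract_eq, h m h1 h2 h3]
    ring

theorem sawSum_refl {D r : ℕ} {a : Fin r → ℚ} (ha : Adm D a) :
    sawSum a (D - 1) = - sawSum a 1 := by
  unfold sawSum
  rw [← sum_neg_distrib]
  apply sum_congr rfl
  intro i hi
  obtain ⟨z, hz⟩ := ha.2.2 i
  have h0 := (mem_filter.1 hi).2
  have h1 : ((D - 1 : ℕ) : ℚ) * a i = -(a i) + (z : ℚ) := by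
    rw [Nat.cast_sub (by have := ha.1; omega), ← hz]
    push_cast
    ring
  rw [h1, Int.fract_add_intCast, Int.fract_neg h0, Nat.cast_one, one_mul]
  ring

theorem fracId_iff {D r : ℕ} {a : Fin r → ℚ} (ha : Adm D a) :
    FracId D a ↔ intCount a = 0 ∧ ∀ m, Nat.Coprime m D → sawSum a m = 0 := by
  rw [fracId_iff_sawSum]
  have hD := ha.1
  constructor
  · intro h
    have h1 := h 1 le_rfl (by omega) (Nat.coprime_one_left D)
    have h2 := h (D - 1) (by omega) (by omega) (by
      have := Nat.coprime_self_add_right (m := D - 1) (n := 1)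
      rw [show D - 1 + 1 = D by omega] at this
      exact this.2 (Nat.coprime_one_right _))
    rw [sawSum_refl ha, h1] at h2
    have h3 : (intCount a : ℚ) = 0 := by linarith
    have h4 : intCount a = 0 := by exact_mod_cast h3
    refine ⟨h4, fun m hm => ?_⟩
    have hm' : Nat.Coprime (m % D) D := by
      unfold Nat.Coprime
      rw [(Nat.mod_modEq m D).gcd_eq]
      exact hm
    have h5 : 1 ≤ m % D := by
      by_contra hcon
      have h6 : m % D = 0 := by omega
      rw [h6, Nat.coprime_zero_left] at hm'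
      omega
    rw [sawSum_congr ha (Nat.mod_modEq m D).symm, h (m % D) h5 (Nat.mod_lt _ (by omega)) hm', h4]
    simp
  · rintro ⟨h1, h2⟩ m h3 h4 h5
    rw [h2 m h5, h1]
    simp

theorem exists_lift {D N : ℕ} (hN : 0 < N) (h : D ∣ N) {m : ℕ} (hm : Nat.Coprime m D) :
    ∃ m', Nat.Coprime m' N ∧ m' ≡ m [MOD D] := by
  have : NeZero N := ⟨hN.ne'⟩
  obtain ⟨u, hu⟩ := ZMod.unitsMap_surjective h (ZMod.unitOfCoprime m hm)
  refine ⟨(u : ZMod N).val, ZMod.val_coe_unit_coprime u, ?_⟩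
  have h1 := congrArg Units.val hu
  rw [ZMod.unitsMap_val, ZMod.coe_unitOfCoprime] at h1
  rw [← ZMod.natCast_eq_natCast_iff, ← h1]
  have : ZMod.cast (u : ZMod N) = (((u : ZMod N).val : ℕ) : ZMod D) := by
    rw [ZMod.cast_eq_val]
  exact this.symm

theorem fracHalf_iff {N : ℕ} (hN : 2 ≤ N) {S : Finset ℕ} :
    FracHalf N S ↔ ∀ m, Nat.Coprime m N → ∑ j ∈ S, saw m ((j : ℚ) / N) = 0 := by
  have hN' : (N : ℚ) ≠ 0 := by
    have : (0 : ℚ) < N := by exact_mod_cast (by omega : 0 < N)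
    exact this.ne'
  have key : ∀ m : ℕ, ∑ j ∈ S, saw m ((j : ℚ) / N) =
      ∑ j ∈ S, Int.fract ((m : ℚ) * ((j : ℚ) / N)) - (S.card : ℚ) / 2 := by
    intro m
    unfold saw
    rw [sum_sub_distrib, sum_const, nsmul_eq_mul]
    ring
  constructor
  · intro h m hm
    have hm' : Nat.Coprime (m % N) N := by
      unfold Nat.Coprime
      rw [(Nat.mod_modEq m N).gcd_eq]
      exact hm
    have h5 : 1 ≤ m % N := by
      by_contra hcon
      have h6 : m % N = 0 := by omega
      rw [h6, Nat.coprime_zero_left] at hm'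
      omega
    have h7 := h (m % N) h5 (Nat.mod_lt _ (by omega)) hm'
    have h8 : ∑ j ∈ S, Int.fract ((m : ℚ) * ((j : ℚ) / N)) =
        ∑ j ∈ S, Int.fract (((m % N : ℕ) : ℚ) * ((j : ℚ) / N)) := by
      apply sum_congr rfl
      intro j _
      apply fract_congr (D := N) ⟨j, ?_⟩ (Nat.mod_modEq m N).symm
      push_cast
      field_simp
    rw [key, h8, h7, sub_self]
  · intro h m h1 h2 h3
    have := h m h3
    rw [key] at this
    linarith

/-- every admissible tuple is equivalent to a half-system -/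
theorem transfer {D r : ℕ} {a : Fin r → ℚ} (ha : Adm D a) :
    ∃ M₀ > 0, ∀ M > 0, M₀ ∣ M → ∃ S : Finset ℕ, HalfSystem (2 * M ^ 2) S ∧
      (GammaMult a ↔ GammaHalf (2 * M ^ 2) S (intCount a)) ∧
      (FracId D a ↔ intCount a = 0 ∧ FracHalf (2 * M ^ 2) S) := by
  classical
  have hD := ha.1
  set I : Finset (Fin r) := univ.filter (fun i => Int.fract (a i) ≠ 0) with hI
  let l : List ℚ := I.toList.map (fun i => Int.fract (a i))
  have hl : ∀ x ∈ l, IsPt D x := by
    intro x hx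
    obtain ⟨i, hi, rfl⟩ := List.mem_map.1 hx
    rw [mem_toList, hI, mem_filter] at hi
    obtain ⟨z, hz⟩ := ha.2.2 i
    refine ⟨lt_of_le_of_ne (Int.fract_nonneg _) (Ne.symm hi.2), Int.fract_lt_one _,
      z - D * ⌊a i⌋, ?_⟩
    push_cast
    rw [← hz]
    unfold Int.fract
    ring
  have hlsum : ∀ (A : Type) [AddCommGroup A] (f : ℚ → A),
      (l.map f).sum = ∑ i ∈ I, f (Int.fract (a i)) := by
    intro A _ f
    change ((I.toList.map (fun i => Int.fract (a i))).map f).sum = _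
    rw [List.map_map]
    exact Finset.sum_map_toList I (fun i => f (Int.fract (a i)))
  obtain ⟨M₀, hM₀, hM⟩ := comb (by omega : 0 < D) l hl
  refine ⟨D * M₀, by positivity, ?_⟩
  intro M hMpos hdvd
  obtain ⟨T, hT, hsum⟩ := hM M hMpos ((Dvd.intro_left D rfl).trans hdvd)
  have hN : 0 < 2 * M ^ 2 := by positivity
  have hN2 : 2 ≤ 2 * M ^ 2 := by nlinarith [Nat.one_le_iff_ne_zero.2 hMpos.ne', sq_nonneg M]
  have hDN : D ∣ 2 * M ^ 2 := by
    obtain ⟨c, hc⟩ := (Dvd.intro M₀ rfl).trans hdvd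
    exact ⟨2 * (c * M), by rw [hc]; ring⟩
  obtain ⟨S, hS, hTS⟩ := toNat_sys hN hT
  have hS0 : ∀ j ∈ S, 0 < j := fun j hj => (hS.mem j hj).1
  have hsum' : ∀ (A : Type) [AddCommGroup A] (f : ℚ → A), OddDist (2 * M ^ 2) f →
      ∑ j ∈ S, f ((j : ℚ) / ((2 * M ^ 2 : ℕ) : ℚ)) = 2 • ∑ i ∈ I, f (Int.fract (a i)) := by
    intro A _ f hf
    rw [← sum_image_sys hN S f, ← hTS, hsum A f hf, hlsum]
  refine ⟨S, hS, ?_, ?_⟩
  · rw [gammaMult_iff ha, gammaHalf_iff hN hS0]
    have h1 := hsum' _ gam (gam_oddDist _)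
    have h2 : ∑ j ∈ S, lg ((j : ℚ) / ((2 * M ^ 2 : ℕ) : ℚ)) -
        2 * ∑ i ∈ I, lg (Int.fract (a i)) ∈ LogAlg := by
      have e1 : ∑ j ∈ S, gam ((j : ℚ) / ((2 * M ^ 2 : ℕ) : ℚ)) =
          QuotientAddGroup.mk (∑ j ∈ S, lg ((j : ℚ) / ((2 * M ^ 2 : ℕ) : ℚ))) :=
        (map_sum (QuotientAddGroup.mk' LogAlg) _ _).symm
      have e2 : ∑ i ∈ I, gam (Int.fract (a i)) =
          QuotientAddGroup.mk (∑ i ∈ I, lg (Int.fract (a i))) :=
        (map_sum (QuotientAddGroup.mk' LogAlg) _ _).symm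
      rw [e1, e2, two_nsmul] at h1
      have h3 : (QuotientAddGroup.mk (∑ j ∈ S, lg ((j : ℚ) / ((2 * M ^ 2 : ℕ) : ℚ))) :
          ℝ ⧸ LogAlg) = QuotientAddGroup.mk (∑ i ∈ I, lg (Int.fract (a i)) +
            ∑ i ∈ I, lg (Int.fract (a i))) := h1
      rw [eq_comm, QuotientAddGroup.eq] at h3
      have h4 : -(∑ i ∈ I, lg (Int.fract (a i)) + ∑ i ∈ I, lg (Int.fract (a i))) +
          ∑ j ∈ S, lg ((j : ℚ) / ((2 * M ^ 2 : ℕ) : ℚ)) =
          ∑ j ∈ S, lg ((j : ℚ) / ((2 * M ^ 2 : ℕ) : ℚ)) -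
            2 * ∑ i ∈ I, lg (Int.fract (a i)) := by ring
      rw [h4] at h3
      exact h3
    set X := ∑ j ∈ S, lg ((j : ℚ) / ((2 * M ^ 2 : ℕ) : ℚ)) with hX
    set Y := ∑ i ∈ I, lg (Int.fract (a i)) with hY
    constructor
    · intro h
      have h3 := LogAlg.add_mem h2 (LogAlg.add_mem h h)
      have h4 : X - 2 * Y + (Y - (intCount a : ℝ) / 2 * log π + (Y - (intCount a : ℝ) / 2 * log π)) =
          X - (intCount a : ℝ) * log π := by ring
      rw [h4] at h3
      exact h3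
    · intro h
      apply LogAlg_div (n := 2) two_pos
      have h3 := LogAlg.sub_mem h h2
      have h4 : X - (intCount a : ℝ) * log π - (X - 2 * Y) =
          ((2 : ℕ) : ℝ) * (Y - (intCount a : ℝ) / 2 * log π) := by
        push_cast
        ring
      rw [h4] at h3
      exact h3
  · rw [fracId_iff ha, fracHalf_iff hN2]
    have key : ∀ m, Nat.Coprime m (2 * M ^ 2) →
        ∑ j ∈ S, saw m ((j : ℚ) / ((2 * M ^ 2 : ℕ) : ℚ)) = 2 * sawSum a m := by
      intro m hm
      rw [hsum' ℚ (saw m) (saw_oddDist hN hm), nsmul_eq_mul]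
      push_cast
      congr 1
      unfold saw sawSum
      apply sum_congr rfl
      intro i _
      rw [fract_mul_fract]
    apply and_congr_right
    intro _
    constructor
    · intro h m hm
      rw [key m hm, h m (Nat.Coprime.coprime_dvd_right hDN hm), mul_zero]
    · intro h m hm
      obtain ⟨m', h1, h2⟩ := exists_lift hN hDN hm
      have h3 := h m' h1
      rw [key m' h1] at h3
      rw [← sawSum_congr ha h2]
      linarith

/-! ### half-systems as tuples -/

/-- the tuple `(j / N)_{j ∈ S}` followed by `2k` ones -/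
noncomputable def tup (N : ℕ) (S : Finset ℕ) (k : ℕ) : Fin (S.card + 2 * k) → ℚ :=
  Fin.append (fun i : Fin S.card => (((S.equivFin.symm i : ℕ)) : ℚ) / N) (fun _ : Fin (2 * k) => 1)

theorem sum_tup {A : Type} [AddCommMonoid A] (N : ℕ) (S : Finset ℕ) (k : ℕ) (F : ℚ → A) :
    ∑ i, F (tup N S k i) = ∑ j ∈ S, F ((j : ℚ) / N) + (2 * k) • F 1 := by
  rw [Fin.sum_univ_add]
  congr 1
  · have h1 : ∑ i : Fin S.card, F (tup N S k (Fin.castAdd (2 * k) i)) =
        ∑ i : Fin S.card, F ((((S.equivFin.symm i : ℕ)) : ℚ) / N) := by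
      apply sum_congr rfl
      intro i _
      unfold tup
      rw [Fin.append_left]
    rw [h1, Equiv.sum_comp S.equivFin.symm (fun j : S => F (((j : ℕ) : ℚ) / N))]
    exact Finset.sum_coe_sort S (fun j : ℕ => F ((j : ℚ) / N))
  · have h1 : ∀ i : Fin (2 * k), F (tup N S k (Fin.natAdd S.card i)) = F 1 := by
      intro i
      unfold tup
      rw [Fin.append_right]
    rw [sum_congr rfl (fun i _ => h1 i)]
    simp

theorem tup_mem (N : ℕ) (S : Finset ℕ) (k : ℕ) (i : Fin (S.card + 2 * k)) :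
    (∃ j ∈ S, tup N S k i = (j : ℚ) / N) ∨ tup N S k i = 1 := by
  refine Fin.addCases (fun i => ?_) (fun i => ?_) i
  · left
    refine ⟨(S.equivFin.symm i : ℕ), (S.equivFin.symm i).2, ?_⟩
    unfold tup
    rw [Fin.append_left]
  · right
    unfold tup
    rw [Fin.append_right]

theorem adm_tup {N : ℕ} (hN : 2 ≤ N) {S : Finset ℕ} (hS : HalfSystem N S) (k : ℕ) :
    Adm N (tup N S k) := by
  have hN' : (0 : ℚ) < N := by exact_mod_cast (by omega : 0 < N)
  have hpos : ∀ i, 0 < tup N S k i := by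
    intro i
    rcases tup_mem N S k i with ⟨j, hj, h⟩ | h
    · rw [h]
      have : (0 : ℚ) < j := by exact_mod_cast (hS.mem j hj).1
      positivity
    · rw [h]
      exact one_pos
  refine ⟨hN, fun i n h => ?_, fun i => ?_⟩
  · have h1 := hpos i
    rw [h] at h1
    have : (0 : ℚ) ≤ n := by positivity
    linarith
  · rcases tup_mem N S k i with ⟨j, hj, h⟩ | h
    · rw [h]
      refine ⟨j, ?_⟩
      push_cast
      field_simp
    · rw [h]
      exact ⟨N, by push_cast; ring⟩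

theorem gammaMult_tup {N : ℕ} (S : Finset ℕ) (k : ℕ) :
    GammaMult (tup N S k) ↔ GammaHalf N S k := by
  unfold GammaMult GammaHalf
  have h1 : ∏ i, Gamma ((tup N S k i : ℚ) : ℝ) = ∏ j ∈ S, Gamma ((j : ℝ) / N) := by
    have h2 := sum_tup (A := Additive ℝ) N S k (fun x => Additive.ofMul (Gamma (x : ℝ)))
    have h3 : Additive.ofMul (Gamma ((1 : ℚ) : ℝ)) = 0 := by
      rw [Rat.cast_one, Gamma_one]
      rfl
    simp only [h3, smul_zero, add_zero] at h2
    have h4 : (∏ i, Gamma ((tup N S k i : ℚ) : ℝ)) =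
        ∏ j ∈ S, Gamma ((((j : ℚ) / N : ℚ)) : ℝ) := h2
    rw [h4]
    push_cast
    rfl
  rw [h1]
  have h5 : (((S.card + 2 * k : ℕ)) : ℝ) / 2 = (S.card : ℝ) / 2 + k := by
    push_cast
    ring
  rw [h5]

theorem fracId_tup {N : ℕ} (hN : 2 ≤ N) {S : Finset ℕ} (hS : HalfSystem N S) (k : ℕ) :
    FracId N (tup N S k) ↔ k = 0 ∧ FracHalf N S := by
  have hN' : (0 : ℚ) < N := by exact_mod_cast (by omega : 0 < N)
  have h1 : ∀ m : ℕ, ∑ i, Int.fract ((m : ℚ) * tup N S k i) =
      ∑ j ∈ S, Int.fract ((m : ℚ) * ((j : ℚ) / N)) := by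
    intro m
    have h2 := sum_tup N S k (fun x => Int.fract ((m : ℚ) * x))
    rw [h2, mul_one, Int.fract_natCast, smul_zero, add_zero]
  have h5 : (((S.card + 2 * k : ℕ)) : ℚ) / 2 = (S.card : ℚ) / 2 + k := by
    push_cast
    ring
  unfold FracId FracHalf
  constructor
  · intro h
    have e1 := h 1 le_rfl (by omega) (Nat.coprime_one_left N)
    have e2 := h (N - 1) (by omega) (by omega) (by
      have := Nat.coprime_self_add_right (m := N - 1) (n := 1)
      rw [show N - 1 + 1 = N by omega] at this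
      exact this.2 (Nat.coprime_one_right _))
    rw [h1, h5] at e1 e2
    have e3 : ∑ j ∈ S, Int.fract (((N - 1 : ℕ) : ℚ) * ((j : ℚ) / N)) =
        S.card - ∑ j ∈ S, Int.fract (((1 : ℕ) : ℚ) * ((j : ℚ) / N)) := by
      have hc : (S.card : ℚ) = ∑ _j ∈ S, (1 : ℚ) := by simp
      rw [hc, ← sum_sub_distrib]
      apply sum_congr rfl
      intro j hj
      obtain ⟨hj1, hj2, -⟩ := hS.mem j hj
      have hj1' : (0 : ℚ) < j := by exact_mod_cast hj1
      have hj2' : (j : ℚ) < N := by exact_mod_cast hj2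
      have h6 : Int.fract ((j : ℚ) / N) = (j : ℚ) / N :=
        Int.fract_eq_self.2 ⟨by positivity, by rw [div_lt_one hN']; exact hj2'⟩
      have h7 : ((N - 1 : ℕ) : ℚ) * ((j : ℚ) / N) = -((j : ℚ) / N) + ((j : ℤ) : ℚ) := by
        rw [Nat.cast_sub (by omega)]
        push_cast
        field_simp
        ring
      rw [h7, Int.fract_add_intCast, Int.fract_neg, Nat.cast_one, one_mul]
      rw [h6]
      positivity
    rw [e3, e1] at e2
    have e4 : (k : ℚ) = 0 := by linarith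
    have e5 : k = 0 := by exact_mod_cast e4
    refine ⟨e5, fun m h6 h7 h8 => ?_⟩
    have h9 := h m h6 h7 h8
    rw [h1, h5, e5] at h9
    rw [h9]
    simp
  · rintro ⟨rfl, h⟩ m h6 h7 h8
    rw [h1, h5, h m h6 h7 h8]
    simp

/-- a tuple question is equivalent to the corresponding half-system question -/
theorem reduction (P : Prop → Prop → Prop) :
    (∀ (D r : ℕ) (a : Fin r → ℚ), Adm D a → P (GammaMult a) (FracId D a)) ↔
    ∀ n : ℕ, ∀ S : Finset ℕ, HalfSystem (2 * n.factorial ^ 2) S → ∀ k : ℕ,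
      P (GammaHalf (2 * n.factorial ^ 2) S k) (k = 0 ∧ FracHalf (2 * n.factorial ^ 2) S) := by
  constructor
  · intro h n S hS k
    have hN : 2 ≤ 2 * n.factorial ^ 2 := by
      have : 1 ≤ n.factorial ^ 2 := Nat.one_le_iff_ne_zero.2 (pow_ne_zero _ n.factorial_ne_zero)
      omega
    have h1 := h _ _ _ (adm_tup hN hS k)
    rw [propext (gammaMult_tup S k), propext (fracId_tup hN hS k)] at h1
    exact h1
  · intro h D r a ha
    obtain ⟨M₀, hM₀, hM⟩ := transfer ha
    obtain ⟨S, hS, h1, h2⟩ := hM M₀.factorial (Nat.factorial_pos _)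
      (Nat.dvd_factorial hM₀ le_rfl)
    rw [propext h1, propext h2]
    exact h M₀ S hS (intCount a)

theorem intCount_tup {N : ℕ} {S : Finset ℕ} (hN : 2 ≤ N) (hS : HalfSystem N S) :
    intCount (tup N S 0) = 0 := by
  have hN' : (0 : ℚ) < N := by exact_mod_cast (by omega : 0 < N)
  unfold intCount
  rw [card_eq_zero, filter_eq_empty_iff]
  intro i _ h0
  refine Fin.addCases (motive := fun i => Int.fract (tup N S 0 i) = 0 → False)
    (fun i h => ?_) (fun i _ => ?_) i h0
  · unfold tup at h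
    rw [Fin.append_left] at h
    obtain ⟨h1, h2, -⟩ := hS.mem _ (S.equivFin.symm i).2
    have h1' : (0 : ℚ) < ((S.equivFin.symm i : ℕ) : ℚ) := by exact_mod_cast h1
    have h2' : ((S.equivFin.symm i : ℕ) : ℚ) < N := by exact_mod_cast h2
    rw [Int.fract_eq_self.2 ⟨by positivity, by rw [div_lt_one hN']; exact h2'⟩] at h
    have : (0 : ℚ) < ((S.equivFin.symm i : ℕ) : ℚ) / N := by positivity
    linarith
  · have := i.2
    omega

/-- the version without integral entries -/
theorem reduction_zero (P : Prop → Prop → Prop) :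
    (∀ (D r : ℕ) (a : Fin r → ℚ), Adm D a → intCount a = 0 → P (GammaMult a) (FracId D a)) ↔
    ∀ n : ℕ, ∀ S : Finset ℕ, HalfSystem (2 * n.factorial ^ 2) S →
      P (GammaHalf (2 * n.factorial ^ 2) S 0) (FracHalf (2 * n.factorial ^ 2) S) := by
  constructor
  · intro h n S hS
    have hN : 2 ≤ 2 * n.factorial ^ 2 := by
      have : 1 ≤ n.factorial ^ 2 := Nat.one_le_iff_ne_zero.2 (pow_ne_zero _ n.factorial_ne_zero)
      omega
    have h1 := h _ _ _ (adm_tup hN hS 0) (intCount_tup hN hS)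
    have h2 : FracId (2 * n.factorial ^ 2) (tup (2 * n.factorial ^ 2) S 0) ↔
        FracHalf (2 * n.factorial ^ 2) S := by
      rw [fracId_tup hN hS 0]
      simp
    rw [propext (gammaMult_tup S 0), propext h2] at h1
    exact h1
  · intro h D r a ha ha0
    obtain ⟨M₀, hM₀, hM⟩ := transfer ha
    obtain ⟨S, hS, h1, h2⟩ := hM M₀.factorial (Nat.factorial_pos _)
      (Nat.dvd_factorial hM₀ le_rfl)
    rw [ha0] at h1
    have h3 : FracId D a ↔ FracHalf (2 * M₀.factorial ^ 2) S := by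
      rw [h2]
      simp [ha0]
    rw [propext h1, propext h3]
    exact h M₀ S hS

end Pool.Agent.Helper99.Rohr
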