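import Mathlib

/-!
# Half-systems and odd distributions
-/

set_option autoImplicit false

namespace Pool.Agent.Helper99.Rohr

open Finset

/-- `x` is a point of `(0,1)` with `N x` an integer -/
def IsPt (N : ℕ) (x : ℚ) : Prop := 0 < x ∧ x < 1 ∧ ∃ z : ℤ, (N : ℚ) * x = z

/-- odd distributions of level `N` -/
structure OddDist {A : Type} [AddCommGroup A] (N : ℕ) (f : ℚ → A) : Prop where
  odd : ∀ x, IsPt N x → f (1 - x) = - f x
  dist : ∀ n : ℕ, 0 < n → ∀ x, IsPt N x → (∀ k < n, IsPt N ((x + k) / n)) →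
    ∑ k ∈ range n, f ((x + k) / n) = f x

/-- a half-system of level `N` -/
structure HalfSys (N : ℕ) (S : Finset ℚ) : Prop where
  pt : ∀ x ∈ S, IsPt N x
  mid : (1 / 2 : ℚ) ∉ S
  one : ∀ x, IsPt N x → x ≠ 1 / 2 → (x ∈ S ↔ 1 - x ∉ S)

theorem IsPt.mono {N N' : ℕ} (h : N ∣ N') {x : ℚ} (hx : IsPt N x) : IsPt N' x := by
  obtain ⟨c, rfl⟩ := h
  obtain ⟨h1, h2, z, hz⟩ := hx
  refine ⟨h1, h2, c * z, ?_⟩
  push_cast
  rw [← hz]
  ring

theorem OddDist.mono {A : Type} [AddCommGroup A] {N N' : ℕ} (h : N ∣ N') {f : ℚ → A}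
    (hf : OddDist N' f) : OddDist N f :=
  ⟨fun x hx => hf.odd x (hx.mono h),
    fun n hn x hx hk => hf.dist n hn x (hx.mono h) (fun k hk' => (hk k hk').mono h)⟩

theorem IsPt.refl {N : ℕ} {x : ℚ} (hx : IsPt N x) : IsPt N (1 - x) := by
  obtain ⟨h1, h2, z, hz⟩ := hx
  refine ⟨by linarith, by linarith, N - z, ?_⟩
  push_cast
  rw [← hz]
  ring

theorem isPt_refl {N : ℕ} {x : ℚ} : IsPt N (1 - x) ↔ IsPt N x := by
  constructor
  · intro h
    have := h.refl
    rwa [sub_sub_cancel] at this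
  · exact fun h => h.refl

/-- the finite set of points -/
def pts (N : ℕ) : Finset ℚ := (Finset.Ioo 0 N).image (fun j : ℕ => (j : ℚ) / N)

theorem mem_pts {N : ℕ} (hN : 0 < N) {x : ℚ} : x ∈ pts N ↔ IsPt N x := by
  have hN' : (0 : ℚ) < N := by exact_mod_cast hN
  unfold pts
  rw [mem_image]
  constructor
  · rintro ⟨j, hj, rfl⟩
    rw [mem_Ioo] at hj
    have h1 : (0 : ℚ) < j := by exact_mod_cast hj.1
    have h2 : (j : ℚ) < N := by exact_mod_cast hj.2
    refine ⟨by positivity, by rw [div_lt_one hN']; exact h2, j, ?_⟩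
    field_simp
    norm_cast
  · rintro ⟨h1, h2, z, hz⟩
    have h3 : (0 : ℚ) < z := by rw [← hz]; positivity
    have h4 : (z : ℚ) < N := by rw [← hz]; nlinarith
    have h5 : (0 : ℤ) < z := by exact_mod_cast h3
    have h6 : z < N := by exact_mod_cast h4
    refine ⟨z.toNat, ?_, ?_⟩
    · rw [mem_Ioo]
      omega
    · have h7 : ((z.toNat : ℕ) : ℚ) = z := by
        have : ((z.toNat : ℕ) : ℤ) = z := Int.toNat_of_nonneg h5.le
        exact_mod_cast this
      rw [h7, ← hz]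
      field_simp

theorem leaf_inj {q : ℕ} (hq : 0 < q) {a b : ℚ} (ha0 : 0 < a) (ha1 : a < 1) (hb0 : 0 < b)
    (hb1 : b < 1) {k l : ℕ} (h : (a + k) / q = (b + l) / q) : a = b ∧ k = l := by
  have hq' : (q : ℚ) ≠ 0 := by exact_mod_cast hq.ne'
  have h1 : a + k = b + l := by
    field_simp at h
    exact h
  have h2 : (k : ℤ) = l := by
    have h3 : (k : ℚ) < l + 1 := by linarith
    have h4 : (l : ℚ) < k + 1 := by linarith
    have h5 : k < l + 1 := by exact_mod_cast h3
    have h6 : l < k + 1 := by exact_mod_cast h4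
    omega
  have h3 : k = l := by exact_mod_cast h2
  subst h3
  exact ⟨by linarith, rfl⟩

theorem leaf_pos {q : ℕ} {a : ℚ} (ha0 : 0 < a) {k : ℕ} (hq : 0 < q) : 0 < (a + k) / q := by
  have hq' : (0 : ℚ) < q := by exact_mod_cast hq
  positivity

theorem leaf_lt {q : ℕ} {a : ℚ} (ha1 : a < 1) {k : ℕ} (hk : k < q) : (a + k) / q < 1 := by
  have hq' : (0 : ℚ) < q := by exact_mod_cast (by omega : 0 < q)
  rw [div_lt_one hq']
  have : (k : ℚ) + 1 ≤ q := by exact_mod_cast hk
  linarith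

/-- the one step construction -/
theorem step {N : ℕ} (hN : 0 < N) (h2N : 2 ∣ N) {S : Finset ℚ} (hS : HalfSys N S) {q : ℕ}
    (hq : 0 < q) (K : Finset ℚ) (hK1 : ∀ x ∈ K, IsPt (N * q) x) (hK2 : ∀ x ∈ K, ¬ IsPt N x)
    (hK3 : ∀ x ∈ K, 1 - x ∉ K) :
    ∃ S', HalfSys (N * q ^ 2) S' ∧ ∀ (A : Type) [AddCommGroup A] (f : ℚ → A),
      OddDist (N * q ^ 2) f → ∑ x ∈ S', f x = ∑ x ∈ S, f x + 2 • ∑ x ∈ K, f x := by
  classical
  have hNq : 0 < N * q := by positivity
  have hNq2 : 0 < N * q ^ 2 := by positivity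
  have hq' : (q : ℚ) ≠ 0 := by exact_mod_cast hq.ne'
  have hN' : (N : ℚ) ≠ 0 := by exact_mod_cast hN.ne'
  set C : Finset ℚ := pts (N * q) \ pts N with hC
  have memC : ∀ x, x ∈ C ↔ IsPt (N * q) x ∧ ¬ IsPt N x := by
    intro x
    rw [hC, mem_sdiff, mem_pts hNq, mem_pts hN]
  have hhalf : IsPt N (1 / 2) := by
    obtain ⟨c, rfl⟩ := h2N
    refine ⟨by norm_num, by norm_num, c, ?_⟩
    push_cast
    ring
  have memCr : ∀ x, 1 - x ∈ C ↔ x ∈ C := by
    intro x
    rw [memC, memC, isPt_refl, isPt_refl]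
  have hCh : ∀ x ∈ C, x ≠ 1 / 2 := by
    rintro x hx rfl
    exact ((memC _).1 hx).2 hhalf
  have hKC : ∀ x ∈ K, x ∈ C := fun x hx => (memC x).2 ⟨hK1 x hx, hK2 x hx⟩
  set H : Finset ℚ := C.filter (fun x => x ∈ K ∨ (1 - x ∉ K ∧ x < 1 / 2)) with hH
  have memH : ∀ x, x ∈ H ↔ x ∈ C ∧ (x ∈ K ∨ (1 - x ∉ K ∧ x < 1 / 2)) := by
    intro x
    rw [hH, mem_filter]
  have Hone : ∀ x ∈ C, (x ∈ H ↔ 1 - x ∉ H) := by
    intro x hx
    have hx' := (memCr x).2 hx
    have hne := hCh x hx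
    rw [memH, memH, sub_sub_cancel]
    have h3 := hK3 x
    have h4 : x < 1 / 2 ∨ 1 / 2 < x := lt_or_gt_of_ne hne
    constructor
    · rintro ⟨-, h5⟩ ⟨-, h6⟩
      rcases h5 with h5 | ⟨h5, h5'⟩
      · rcases h6 with h6 | ⟨h6, h6'⟩
        · exact h3 h5 h6
        · exact h6 h5
      · rcases h6 with h6 | ⟨h6, h6'⟩
        · exact h5 h6
        · linarith
    · intro h5
      refine ⟨hx, ?_⟩
      by_contra h6
      push Not at h6
      apply h5
      refine ⟨hx', ?_⟩
      by_cases h7 : 1 - x ∈ K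
      · exact Or.inl h7
      · refine Or.inr ⟨h6.1, ?_⟩
        have h8 := h6.2 h7
        rcases h4 with h4 | h4
        · linarith
        · linarith
  have hKH : ∀ x ∈ K, x ∈ H := fun x hx => (memH x).2 ⟨hKC x hx, Or.inl hx⟩
  set E : Finset ℚ := C.filter (fun a => a ∈ K ∨ (1 - a ∈ H ∧ 1 - a ∉ K)) with hE
  have memE : ∀ x, x ∈ E ↔ x ∈ C ∧ (x ∈ K ∨ (1 - x ∈ H ∧ 1 - x ∉ K)) := by
    intro x
    rw [hE, mem_filter]
  have Eone : ∀ x ∈ C, (x ∈ E ↔ 1 - x ∉ E) := by
    intro x hx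
    have hx' := (memCr x).2 hx
    rw [memE, memE, sub_sub_cancel]
    have h3 := hK3 x
    have h4 := Hone x hx
    have h5 := hKH x
    have h6 := hKH (1 - x)
    simp only [hx, hx', true_and]
    clear_value C H
    clear memC memCr hCh hKC memH Hone hKH hhalf hK1 hK2 hS
    tauto
  set Lf : Finset ℚ := (E ×ˢ range q).image (fun p : ℚ × ℕ => (p.1 + p.2) / q) with hLf
  have memLf : ∀ x, x ∈ Lf ↔ ∃ a ∈ E, ∃ k < q, (a + k) / q = x := by
    intro x
    rw [hLf, mem_image]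
    constructor
    · rintro ⟨⟨a, k⟩, h1, h2⟩
      rw [mem_product, mem_range] at h1
      exact ⟨a, h1.1, k, h1.2, h2⟩
    · rintro ⟨a, ha, k, hk, h⟩
      exact ⟨⟨a, k⟩, by rw [mem_product, mem_range]; exact ⟨ha, hk⟩, h⟩
  -- leaves of centres are new points of the last level
  have hleaf1 : ∀ a ∈ C, ∀ k < q, IsPt (N * q ^ 2) ((a + k) / q) := by
    intro a ha k hk
    obtain ⟨⟨h1, h2, z, hz⟩, -⟩ := (memC a).1 ha
    refine ⟨leaf_pos h1 hq, leaf_lt h2 hk, z + N * q * k, ?_⟩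
    push_cast at hz ⊢
    rw [← hz]
    field_simp
  have hleaf2 : ∀ a ∈ C, ∀ k < q, ¬ IsPt (N * q) ((a + k) / q) := by
    rintro a ha k hk ⟨-, -, z, hz⟩
    obtain ⟨⟨h1, h2, -⟩, h3⟩ := (memC a).1 ha
    apply h3
    refine ⟨h1, h2, z - N * k, ?_⟩
    push_cast at hz ⊢
    rw [← hz]
    field_simp
    ring
  have hleaf3 : ∀ x, IsPt (N * q ^ 2) x → ¬ IsPt (N * q) x → ∃ a ∈ C, ∃ k < q, (a + k) / q = x := by
    rintro x ⟨h1, h2, z, hz⟩ h3
    have hqq : (0 : ℚ) < q := by exact_mod_cast hq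
    have hfl0 : 0 ≤ ⌊(q : ℚ) * x⌋ := by
      rw [Int.floor_nonneg]
      positivity
    have hfl1 : ⌊(q : ℚ) * x⌋ < q := by
      rw [Int.floor_lt]
      push_cast
      nlinarith
    have hk : ((⌊(q : ℚ) * x⌋.toNat : ℕ) : ℚ) = ⌊(q : ℚ) * x⌋ := by
      have : ((⌊(q : ℚ) * x⌋.toNat : ℕ) : ℤ) = ⌊(q : ℚ) * x⌋ := Int.toNat_of_nonneg hfl0
      exact_mod_cast this
    have hnz : ∀ w : ℤ, (N : ℚ) * Int.fract ((q : ℚ) * x) ≠ w := by
      intro w hw
      apply h3
      refine ⟨h1, h2, w + N * ⌊(q : ℚ) * x⌋, ?_⟩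
      push_cast
      rw [← hw]
      have := Int.fract_add_floor ((q : ℚ) * x)
      calc (N : ℚ) * q * x = N * (q * x) := by ring
        _ = N * (Int.fract ((q : ℚ) * x) + ⌊(q : ℚ) * x⌋) := by rw [this]
        _ = _ := by ring
    refine ⟨Int.fract ((q : ℚ) * x), ?_, ⌊(q : ℚ) * x⌋.toNat, by omega, ?_⟩
    · rw [memC]
      refine ⟨⟨?_, Int.fract_lt_one _, z - N * q * ⌊(q : ℚ) * x⌋, ?_⟩, ?_⟩
      · refine lt_of_le_of_ne (Int.fract_nonneg _) (fun h => ?_)
        apply hnz 0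
        rw [← h]
        simp
      · push_cast at hz ⊢
        rw [← hz]
        unfold Int.fract
        ring
      · rintro ⟨-, -, w, hw⟩
        exact hnz w hw
    · rw [hk, Int.fract_add_floor]
      field_simp
  refine ⟨S ∪ H ∪ Lf, ⟨?_, ?_, ?_⟩, ?_⟩
  · -- points
    intro x hx
    rw [mem_union, mem_union] at hx
    rcases hx with (hx | hx) | hx
    · exact (hS.pt x hx).mono (Dvd.intro _ rfl)
    · have h1 := ((memC x).1 ((memH x).1 hx).1).1
      exact h1.mono ⟨q, by ring⟩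
    · obtain ⟨a, ha, k, hk, rfl⟩ := (memLf x).1 hx
      exact hleaf1 a ((memE a).1 ha).1 k hk
  · intro h
    rw [mem_union, mem_union] at h
    rcases h with (h | h) | h
    · exact hS.mid h
    · exact hCh _ ((memH _).1 h).1 rfl
    · obtain ⟨a, ha, k, hk, hak⟩ := (memLf _).1 h
      apply hleaf2 a ((memE a).1 ha).1 k hk
      rw [hak]
      exact hhalf.mono (Dvd.intro _ rfl)
  · intro x hx hxne
    have hmem : ∀ y, y ∈ S ∪ H ∪ Lf ↔ (y ∈ S ∨ y ∈ H) ∨ y ∈ Lf := by
      intro y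
      rw [mem_union, mem_union]
    rw [hmem, hmem]
    have hS' : ∀ y, y ∈ S → IsPt N y := hS.pt
    have hH' : ∀ y, y ∈ H → IsPt (N * q) y ∧ ¬ IsPt N y := fun y hy => (memC y).1 ((memH y).1 hy).1
    have hL' : ∀ y, y ∈ Lf → ¬ IsPt (N * q) y := by
      intro y hy
      obtain ⟨a, ha, k, hk, rfl⟩ := (memLf y).1 hy
      exact hleaf2 a ((memE a).1 ha).1 k hk
    have hmono : IsPt N x → IsPt (N * q) x := fun h => h.mono (Dvd.intro _ rfl)
    have hmono' : IsPt N (1 - x) → IsPt (N * q) (1 - x) := fun h => h.mono (Dvd.intro _ rfl)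
    have hr1 : IsPt N (1 - x) ↔ IsPt N x := isPt_refl
    have hr2 : IsPt (N * q) (1 - x) ↔ IsPt (N * q) x := isPt_refl
    by_cases c1 : IsPt N x
    · have h1 := hS.one x c1 hxne
      have n1 : x ∉ H := fun h => (hH' x h).2 c1
      have n2 : x ∉ Lf := fun h => hL' x h (hmono c1)
      have n3 : 1 - x ∉ H := fun h => (hH' _ h).2 (hr1.2 c1)
      have n4 : 1 - x ∉ Lf := fun h => hL' _ h (hmono' (hr1.2 c1))
      simp only [n1, n2, n3, n4, or_false]
      exact h1
    · by_cases c2 : IsPt (N * q) x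
      · have h1 := Hone x ((memC x).2 ⟨c2, c1⟩)
        have n1 : x ∉ S := fun h => c1 (hS' x h)
        have n2 : x ∉ Lf := fun h => hL' x h c2
        have n3 : 1 - x ∉ S := fun h => c1 (hr1.1 (hS' _ h))
        have n4 : 1 - x ∉ Lf := fun h => hL' _ h (hr2.2 c2)
        simp only [n1, n2, n3, n4, or_false, false_or]
        exact h1
      · obtain ⟨a, ha, k, hk, hak⟩ := hleaf3 x hx c2
        have ha' := (memC a).1 ha
        have e1 : x ∈ Lf ↔ a ∈ E := by
          rw [memLf]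
          constructor
          · rintro ⟨b, hb, l, hl, hbl⟩
            have hb' := (memC b).1 ((memE b).1 hb).1
            have := leaf_inj hq hb'.1.1 hb'.1.2.1 ha'.1.1 ha'.1.2.1 (hbl.trans hak.symm)
            rw [← this.1]
            exact hb
          · intro h
            exact ⟨a, h, k, hk, hak⟩
        have hak' : ((1 - a) + ((q - 1 - k : ℕ) : ℚ)) / q = 1 - x := by
          rw [← hak]
          have : ((q - 1 - k : ℕ) : ℚ) = q - 1 - k := by
            rw [Nat.cast_sub (by omega), Nat.cast_sub (by omega)]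
            simp
          rw [this]
          field_simp
          ring
        have ha'' := (memC _).1 ((memCr a).2 ha)
        have e2 : 1 - x ∈ Lf ↔ 1 - a ∈ E := by
          rw [memLf]
          constructor
          · rintro ⟨b, hb, l, hl, hbl⟩
            have hb' := (memC b).1 ((memE b).1 hb).1
            have := leaf_inj hq hb'.1.1 hb'.1.2.1 ha''.1.1 ha''.1.2.1 (hbl.trans hak'.symm)
            rw [← this.1]
            exact hb
          · intro h
            exact ⟨1 - a, h, q - 1 - k, by omega, hak'⟩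
        have h1 := Eone a ha
        have n1 : x ∉ S := fun h => c1 (hS' x h)
        have n2 : x ∉ H := fun h => c2 (hH' x h).1
        have n3 : 1 - x ∉ S := fun h => c1 (hr1.1 (hS' _ h))
        have n4 : 1 - x ∉ H := fun h => c2 (hr2.1 (hH' _ h).1)
        simp only [n1, n2, n3, n4, or_false, false_or]
        rw [e1, e2]
        exact h1
  · intro A _ f hf
    have hd1 : Disjoint (S ∪ H) Lf := by
      rw [Finset.disjoint_left]
      intro x hx hx'
      obtain ⟨a, ha, k, hk, rfl⟩ := (memLf x).1 hx'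
      apply hleaf2 a ((memE a).1 ha).1 k hk
      rw [mem_union] at hx
      rcases hx with hx | hx
      · exact (hS.pt _ hx).mono (Dvd.intro _ rfl)
      · exact ((memC _).1 ((memH _).1 hx).1).1
    have hd2 : Disjoint S H := by
      rw [Finset.disjoint_left]
      intro x hx hx'
      exact ((memC x).1 ((memH x).1 hx').1).2 (hS.pt x hx)
    rw [sum_union hd1, sum_union hd2]
    have hsL : ∑ x ∈ Lf, f x = ∑ a ∈ E, f a := by
      have hinj : Set.InjOn (fun p : ℚ × ℕ => (p.1 + p.2) / (q : ℚ)) (E ×ˢ range q : Finset (ℚ × ℕ)) := by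
        rintro ⟨a, k⟩ h1 ⟨b, l⟩ h2 h3
        rw [mem_coe, mem_product] at h1 h2
        have ha' := (memC a).1 ((memE a).1 h1.1).1
        have hb' := (memC b).1 ((memE b).1 h2.1).1
        have h4 := leaf_inj hq ha'.1.1 ha'.1.2.1 hb'.1.1 hb'.1.2.1 h3
        exact Prod.ext h4.1 h4.2
      rw [hLf, sum_image hinj, sum_product]
      apply sum_congr rfl
      intro a ha
      have ha' := (memE a).1 ha
      have h5 : IsPt (N * q ^ 2) a := ((memC a).1 ha'.1).1.mono ⟨q, by ring⟩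
      exact hf.dist q hq a h5 (fun k hk => hleaf1 a ha'.1 k hk)
    have hsH : ∑ x ∈ H, f x = ∑ x ∈ K, f x + ∑ x ∈ H \ K, f x := by
      rw [add_comm]
      exact (sum_sdiff (fun x hx => hKH x hx)).symm
    have hsE : ∑ x ∈ E, f x = ∑ x ∈ K, f x - ∑ x ∈ H \ K, f x := by
      have h1 : E = K ∪ (H \ K).image (fun x => 1 - x) := by
        ext x
        rw [memE, mem_union, mem_image]
        constructor
        · rintro ⟨h1, h2 | ⟨h2, h3⟩⟩
          · exact Or.inl h2
          · exact Or.inr ⟨1 - x, mem_sdiff.2 ⟨h2, h3⟩, by ring⟩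
        · rintro (h1 | ⟨y, hy, rfl⟩)
          · exact ⟨hKC x h1, Or.inl h1⟩
          · rw [mem_sdiff] at hy
            have hyC := ((memH y).1 hy.1).1
            refine ⟨(memCr y).2 hyC, Or.inr ?_⟩
            rw [sub_sub_cancel]
            exact hy
      have h2 : Disjoint K ((H \ K).image (fun x => 1 - x)) := by
        rw [Finset.disjoint_left]
        intro x hx hx'
        rw [mem_image] at hx'
        obtain ⟨y, hy, rfl⟩ := hx'
        rw [mem_sdiff] at hy
        have hyC := ((memH y).1 hy.1).1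
        have h4 := (Hone y hyC).1 hy.1
        exact h4 (hKH _ hx)
      rw [h1, sum_union h2, sum_image, sub_eq_add_neg, ← sum_neg_distrib]
      · congr 1
        apply sum_congr rfl
        intro y hy
        rw [mem_sdiff] at hy
        have hyC := ((memH y).1 hy.1).1
        exact hf.odd y (((memC y).1 hyC).1.mono ⟨q, by ring⟩)
      · intro x _ y _ h
        have : (1 : ℚ) - x = 1 - y := h
        linarith
    rw [hsL, hsH, hsE, two_nsmul]
    abel

end Pool.Agent.Helper99.Rohr
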